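import Pool.Agent.Helper80.AO.Vec

/-!
# Vectors of numbers composed of fixed primes with a sum divisible by a high power, II (helper80)
-/

set_option autoImplicit false

namespace Pool.Agent.Helper80.AO

open Pool.Agent.Helper80.NE Pool.Agent.Helper80.VO

theorem norm_sum_le' {p : ℕ} [Fact p.Prime] {ι : Type*} (s : Finset ι) (f : ι → ℚ_[p]) {η : ℝ} (hη : 0 ≤ η)
    (h : ∀ i ∈ s, ‖f i‖ ≤ η) : ‖∑ i ∈ s, f i‖ ≤ η := by
  classical
  induction s using Finset.induction_on with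
  | empty => simpa using hη
  | insert a s ha ih =>
    rw [Finset.sum_insert ha]
    refine (Padic.nonarchimedean _ _).trans (max_le (h a (Finset.mem_insert_self _ _)) (ih ?_))
    exact fun i hi => h i (Finset.mem_insert_of_mem hi)

theorem val_zero {p : ℕ} [hp : Fact p.Prime] {w : ℚ} (hw : w ≠ 0) (h : padicValRat p w = 0) :
    ¬ p ∣ w.num.natAbs ∧ ¬ p ∣ w.den := by
  have e : padicValRat p w = (padicValNat p w.num.natAbs : ℤ) - padicValNat p w.den := by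
    rw [padicValRat_def]; rfl
  have hn : w.num.natAbs ≠ 0 := by simpa using hw
  have hred := w.reduced
  have key : ∀ {a b : ℕ}, a ≠ 0 → a.Coprime b → p ∣ a → 1 ≤ padicValNat p a ∧ padicValNat p b = 0 := by
    intro a b ha hab hpa
    refine ⟨one_le_padicValNat_of_dvd ha hpa, ?_⟩
    apply padicValNat.eq_zero_of_not_dvd
    intro hpb
    exact hp.out.one_lt.ne' (Nat.dvd_one.1 (hab ▸ Nat.dvd_gcd hpa hpb))
  constructor
  · intro hd
    obtain ⟨h1, h2⟩ := key hn hred hd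
    rw [e, h2] at h
    omega
  · intro hd
    obtain ⟨h1, h2⟩ := key w.den_nz hred.symm hd
    rw [e, h2] at h
    omega

theorem val_zero' {p : ℕ} {w : ℚ} (h1 : ¬ p ∣ w.num.natAbs) (h2 : ¬ p ∣ w.den) :
    padicValRat p w = 0 := by
  rw [padicValRat_def, padicValInt, padicValNat.eq_zero_of_not_dvd h1, padicValNat.eq_zero_of_not_dvd h2]
  simp

theorem vec {m : ℕ} (hm : 2 ≤ m) (S : Finset ℕ) (x : Fin m → ℝ)
    (x' : ∀ (p : ℕ) [Fact p.Prime], Fin m → ℚ_[p]) (ε : ℝ) (hε : 0 < ε) :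
    ∃ (l N : ℕ) (_ : Fact l.Prime), N ≠ 0 ∧ ∀ s : ℕ, ∃ w : Fin m → ℚ, (∀ i, w i ≠ 0) ∧
      (∀ i, |(w i : ℝ) - x i| < ε) ∧
      (∀ (p : ℕ) [Fact p.Prime], p ∈ S → ∀ i, ‖(w i : ℚ_[p]) - x' p i‖ < ε) ∧
      (∀ i, ∀ p : ℕ, p.Prime → ¬ p ∣ N → ¬ p ∣ (w i).num.natAbs ∧ ¬ p ∣ (w i).den) ∧
      (∀ i, ‖(w i : ℚ_[l])‖ = 1) ∧
      ‖((∑ i, w i : ℚ) : ℚ_[l])‖ ≤ (l : ℝ) ^ (-((s + 1 : ℕ) : ℤ)) := by
  classical
  obtain ⟨l, hlge, hlp⟩ := Nat.exists_infinite_primes (m + S.sup id + 3)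
  have hfl : Fact l.Prime := ⟨hlp⟩
  have hl2 : l ≠ 2 := by omega
  have hlS : ∀ p ∈ S, p < l := by
    intro p hp
    have : p ≤ S.sup id := Finset.le_sup (f := id) hp
    omega
  obtain ⟨α, hα0, hα⟩ : ∃ α : Fin m → ℤ, ∑ i, α i = 0 ∧ ∀ i, ¬ (l : ℤ) ∣ α i := by
    obtain ⟨k, rfl⟩ : ∃ k, m = k + 1 := ⟨m - 1, by omega⟩
    refine ⟨Fin.cons (-(k : ℤ)) (fun _ => 1), by simp [Fin.sum_univ_succ], ?_⟩
    intro i
    refine Fin.cases ?_ (fun j => ?_) i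
    · rw [Fin.cons_zero, dvd_neg]
      intro h
      have h1 : l ∣ k := by exact_mod_cast h
      have := Nat.le_of_dvd (by omega) h1
      omega
    · rw [Fin.cons_succ]
      intro h
      have h1 : l ∣ 1 := by exact_mod_cast h
      exact hlp.one_lt.ne' (Nat.dvd_one.1 h1)
  have hαn : ∀ i, ‖((α i : ℤ) : ℚ_[l])‖ = 1 := by
    intro i
    apply le_antisymm (Padic.norm_int_le_one _)
    by_contra h
    exact hα i ((Padic.norm_intCast_lt_one_iff (p := l) (k := α i)).1 (lt_of_not_ge h))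
  -- approximation by rational numbers
  have hwa : ∀ i : Fin m, ∃ r : ℚ, |(r : ℝ) - x i| < min (ε / 2) 1 ∧
      ∀ (p : ℕ) [Fact p.Prime], p ∈ insert l S →
        ‖(r : ℚ_[p]) - (if p = l then ((α i : ℤ) : ℚ_[p]) else x' p i)‖ < min (ε / 2) 1 := by
    intro i
    exact weak_approx (insert l S) (x i) (fun p _ => if p = l then ((α i : ℤ) : ℚ_[p]) else x' p i)
      (min (ε / 2) 1) (lt_min (by linarith) one_pos)
  choose r hr1 hr2 using hwa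
  have hrl : ∀ i, ‖(r i : ℚ_[l]) - α i‖ < 1 := by
    intro i
    have := hr2 i l (Finset.mem_insert_self _ _)
    rw [if_pos rfl] at this
    exact lt_of_lt_of_le this (min_le_right _ _)
  have hrln : ∀ i, ‖(r i : ℚ_[l])‖ = 1 := fun i => norm_eq_one_of_near (hαn i) (hrl i)
  have hr0 : ∀ i, r i ≠ 0 := by
    intro i h0
    have := hrln i
    rw [h0] at this
    simp at this
  have hrS : ∀ i, ∀ (p : ℕ) [Fact p.Prime], p ∈ S → ‖(r i : ℚ_[p]) - x' p i‖ < ε / 2 := by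
    intro i p _ hp
    have := hr2 i p (Finset.mem_insert_of_mem hp)
    rw [if_neg (ne_of_lt (hlS p hp))] at this
    exact lt_of_lt_of_le this (min_le_left _ _)
  -- the modulus
  obtain ⟨C, hC⟩ : ∃ C : ℝ, C = ∑ p ∈ S, ∑ i, (padicNorm p (r i) : ℝ) := ⟨_, rfl⟩
  have hC0 : 0 ≤ C := by
    rw [hC]
    exact Finset.sum_nonneg fun p _ => Finset.sum_nonneg fun i _ => by exact_mod_cast padicNorm.nonneg _
  have hCle : ∀ (p : ℕ) [Fact p.Prime], p ∈ S → ∀ i, ‖(r i : ℚ_[p])‖ ≤ C := by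
    intro p _ hp i
    rw [Padic.eq_padicNorm, hC]
    refine le_trans ?_ (Finset.single_le_sum (f := fun p => ∑ i, (padicNorm p (r i) : ℝ)) (fun q _ =>
      Finset.sum_nonneg fun i _ => by exact_mod_cast padicNorm.nonneg _) hp)
    exact Finset.single_le_sum (f := fun i => (padicNorm p (r i) : ℝ)) (fun j _ => by
      exact_mod_cast padicNorm.nonneg _) (Finset.mem_univ i)
  obtain ⟨K, hK⟩ := exists_pow_lt_of_lt_one (show 0 < ε / (C + 1) by positivity)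
    (show (1 / 2 : ℝ) < 1 by norm_num)
  obtain ⟨M, hMdef⟩ : ∃ M : ℕ, M = (∏ p ∈ S.filter Nat.Prime, p) ^ (K + 1) := ⟨_, rfl⟩
  have hM : ¬ l ∣ M := by
    rw [hMdef]
    intro h
    have h1 := hlp.dvd_of_dvd_pow h
    obtain ⟨p, hp, hlp'⟩ := (hlp.prime.dvd_finsetProd_iff _).1 h1
    rw [Finset.mem_filter] at hp
    have := (Nat.prime_dvd_prime_iff_eq hlp hp.2).1 hlp'
    have := hlS p hp.1
    omega
  have hMn : ∀ (p : ℕ) [Fact p.Prime], p ∈ S → ‖(M : ℚ_[p])‖ ≤ (1 / 2 : ℝ) ^ (K + 1) := by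
    intro p hp hpS
    obtain ⟨t, ht⟩ : p ∣ ∏ p ∈ S.filter Nat.Prime, p :=
      Finset.dvd_prod_of_mem _ (Finset.mem_filter.2 ⟨hpS, hp.out⟩)
    rw [hMdef, ht, mul_pow]
    push_cast
    rw [norm_mul, norm_pow, norm_pow, Padic.norm_p]
    have h1 : ‖(t : ℚ_[p])‖ ≤ 1 := by
      have := Padic.norm_int_le_one (p := p) (t : ℤ)
      simpa using this
    have h2 : ((p : ℝ)⁻¹) ≤ 1 / 2 := by
      rw [inv_eq_one_div]
      apply one_div_le_one_div_of_le (by norm_num)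
      exact_mod_cast hp.out.two_le
    calc (p : ℝ)⁻¹ ^ (K + 1) * ‖(t : ℚ_[p])‖ ^ (K + 1) ≤ (1 / 2 : ℝ) ^ (K + 1) * 1 := by
          apply mul_le_mul (pow_le_pow_left₀ (by positivity) h2 _) (pow_le_one₀ (norm_nonneg _) h1)
            (by positivity) (by positivity)
      _ = _ := mul_one _
  have hhalf : (1 / 2 : ℝ) ^ (K + 1) < 1 := pow_lt_one₀ (by norm_num) (by norm_num) (by omega)
  obtain ⟨Q, hQ⟩ : ∃ Q : ℕ, Q = 1 + l * M := ⟨_, rfl⟩
  obtain ⟨Q2, hQ2⟩ : ∃ Q2 : ℕ, Q2 = 1 + l * (M * Q) := ⟨_, rfl⟩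
  have hQ0 : Q ≠ 0 := by omega
  have hQ20 : Q2 ≠ 0 := by omega
  have hnear : ∀ (p : ℕ) [Fact p.Prime], p ∈ S → ∀ a b : ℤ,
      ‖(Q : ℚ_[p]) ^ a * (Q2 : ℚ_[p]) ^ b - 1‖ ≤ (1 / 2 : ℝ) ^ (K + 1) := by
    intro p _ hp a b
    have hint : ∀ t : ℕ, ‖(t : ℚ_[p])‖ ≤ 1 := by
      intro t
      have := Padic.norm_int_le_one (p := p) (t : ℤ)
      simpa using this
    apply near_one_mul hhalf
    · apply near_one_zpow hhalf
      rw [hQ]
      push_cast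
      rw [add_sub_cancel_left, norm_mul]
      calc ‖(l : ℚ_[p])‖ * ‖(M : ℚ_[p])‖ ≤ 1 * (1 / 2 : ℝ) ^ (K + 1) := by
            apply mul_le_mul (hint l) (hMn p hp) (norm_nonneg _) (by norm_num)
        _ = _ := one_mul _
    · apply near_one_zpow hhalf
      rw [hQ2]
      push_cast
      rw [add_sub_cancel_left, norm_mul, norm_mul]
      calc ‖(l : ℚ_[p])‖ * (‖(M : ℚ_[p])‖ * ‖(Q : ℚ_[p])‖) ≤ 1 * ((1 / 2 : ℝ) ^ (K + 1) * 1) := by
            apply mul_le_mul (hint l) (mul_le_mul (hMn p hp) (hint Q) (norm_nonneg _) (by positivity))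
              (by positivity) (by norm_num)
        _ = _ := by ring
  obtain ⟨N, hN⟩ : ∃ N : ℕ, N = (∏ i, ((r i).num.natAbs * (r i).den)) * Q * Q2 := ⟨_, rfl⟩
  refine ⟨l, N, hfl, ?_, ?_⟩
  · rw [hN]
    refine mul_ne_zero (mul_ne_zero (Finset.prod_ne_zero_iff.2 fun i _ => mul_ne_zero ?_ (r i).den_nz) hQ0) hQ20
    simpa using hr0 i
  intro s
  have hco : ∀ i, ∃ a b : ℤ, |((r i * ((Q : ℚ) ^ a * (Q2 : ℚ) ^ b) : ℚ) : ℝ) - r i| < ε / 2 ∧
      ‖((r i * ((Q : ℚ) ^ a * (Q2 : ℚ) ^ b) : ℚ) : ℚ_[l]) - α i‖ ≤ (l : ℝ) ^ (-((s + 1 : ℕ) : ℤ)) :=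
    fun i => coord hl2 hM hQ hQ2 (hα i) (hrl i) (by linarith) s
  choose a b hab1 hab2 using hco
  have hlt : (l : ℝ) ^ (-((s + 1 : ℕ) : ℤ)) < 1 := by
    rw [zpow_neg, zpow_natCast]
    exact inv_lt_one_of_one_lt₀ (one_lt_pow₀ (by exact_mod_cast hlp.one_lt) (by omega))
  have hQq : (Q : ℚ) ≠ 0 := by exact_mod_cast hQ0
  have hQ2q : (Q2 : ℚ) ≠ 0 := by exact_mod_cast hQ20
  have hw0 : ∀ i, r i * ((Q : ℚ) ^ a i * (Q2 : ℚ) ^ b i) ≠ 0 := fun i =>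
    mul_ne_zero (hr0 i) (mul_ne_zero (zpow_ne_zero _ hQq) (zpow_ne_zero _ hQ2q))
  refine ⟨fun i => r i * ((Q : ℚ) ^ a i * (Q2 : ℚ) ^ b i), hw0, ?_, ?_, ?_, ?_, ?_⟩
  · intro i
    have h1 := hab1 i
    have h2 := lt_of_lt_of_le (hr1 i) (min_le_left _ _)
    calc |((r i * ((Q : ℚ) ^ a i * (Q2 : ℚ) ^ b i) : ℚ) : ℝ) - x i|
        ≤ |((r i * ((Q : ℚ) ^ a i * (Q2 : ℚ) ^ b i) : ℚ) : ℝ) - r i| + |(r i : ℝ) - x i| := abs_sub_le _ _ _
      _ < ε := by linarith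
  · intro p _ hp i
    have e : ((r i * ((Q : ℚ) ^ a i * (Q2 : ℚ) ^ b i) : ℚ) : ℚ_[p]) - x' p i
        = (r i : ℚ_[p]) * ((Q : ℚ_[p]) ^ a i * (Q2 : ℚ_[p]) ^ b i - 1) + ((r i : ℚ_[p]) - x' p i) := by
      push_cast
      ring
    rw [e]
    refine lt_of_le_of_lt (Padic.nonarchimedean _ _) (max_lt ?_ (by linarith [hrS i p hp]))
    rw [norm_mul]
    have h3 : (1 / 2 : ℝ) ^ (K + 1) < ε / (C + 1) := lt_of_le_of_lt
      (pow_le_pow_of_le_one (by norm_num) (by norm_num) (Nat.le_succ K)) hK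
    rw [lt_div_iff₀ (by positivity)] at h3
    calc ‖(r i : ℚ_[p])‖ * ‖(Q : ℚ_[p]) ^ a i * (Q2 : ℚ_[p]) ^ b i - 1‖ ≤ C * (1 / 2 : ℝ) ^ (K + 1) :=
          mul_le_mul (hCle p hp i) (hnear p hp _ _) (norm_nonneg _) hC0
      _ ≤ (1 / 2 : ℝ) ^ (K + 1) * (C + 1) := by nlinarith [pow_pos (show (0 : ℝ) < 1 / 2 by norm_num) (K + 1)]
      _ < ε := h3
  · intro i p hp hpN
    have hfp : Fact p.Prime := ⟨hp⟩
    apply val_zero (hw0 i)
    have hQp : ¬ p ∣ Q := fun h => hpN (by rw [hN]; exact Dvd.dvd.mul_right (Dvd.dvd.mul_left h _) _)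
    have hQ2p : ¬ p ∣ Q2 := fun h => hpN (by rw [hN]; exact Dvd.dvd.mul_left h _)
    have hri : ¬ p ∣ (r i).num.natAbs * (r i).den := fun h => hpN (by
      rw [hN]
      exact Dvd.dvd.mul_right (Dvd.dvd.mul_right (h.trans (Finset.dvd_prod_of_mem
        (fun i => (r i).num.natAbs * (r i).den) (Finset.mem_univ i))) _) _)
    have v1 : padicValRat p (r i) = 0 := val_zero' (fun h => hri (Dvd.dvd.mul_right h _))
      (fun h => hri (Dvd.dvd.mul_left h _))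
    have v2 : padicValRat p (Q : ℚ) = 0 := by
      rw [padicValRat.of_nat, padicValNat.eq_zero_of_not_dvd hQp]; rfl
    have v3 : padicValRat p (Q2 : ℚ) = 0 := by
      rw [padicValRat.of_nat, padicValNat.eq_zero_of_not_dvd hQ2p]; rfl
    rw [padicValRat.mul (hr0 i) (mul_ne_zero (zpow_ne_zero _ hQq) (zpow_ne_zero _ hQ2q)),
      padicValRat.mul (zpow_ne_zero _ hQq) (zpow_ne_zero _ hQ2q), padicValRat.zpow, padicValRat.zpow, v1, v2, v3]
    simp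
  · intro i
    exact norm_eq_one_of_near (hαn i) (lt_of_le_of_lt (hab2 i) hlt)
  · have e : ((∑ i, r i * ((Q : ℚ) ^ a i * (Q2 : ℚ) ^ b i) : ℚ) : ℚ_[l])
        = ∑ i, (((r i * ((Q : ℚ) ^ a i * (Q2 : ℚ) ^ b i) : ℚ) : ℚ_[l]) - α i) := by
      rw [Finset.sum_sub_distrib, Rat.cast_sum]
      have : ∑ i, ((α i : ℤ) : ℚ_[l]) = 0 := by
        have := congrArg (fun t : ℤ => (t : ℚ_[l])) hα0
        push_cast at this
        exact this
      rw [this, sub_zero]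
    rw [e]
    exact norm_sum_le' _ _ (by positivity) fun i _ => hab2 i

end Pool.Agent.Helper80.AO
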