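import Pool.Agent.Helper80.AO.Good
import Pool.Agent.Helper80.AO.Vec2B

/-!
# Coordinates with short exponents (helper80)
-/

set_option autoImplicit false

namespace Pool.Agent.Helper80.AO

open Pool.Agent.Helper80.NE Pool.Agent.Helper80.VO

variable {l M Q Q2 : ℕ} [Fact l.Prime]

theorem Dat.coord (d : Dat l M Q Q2) {α : ℤ} (hα : ¬ (l : ℤ) ∣ α) {r : ℚ}
    (hr : ‖(r : ℚ_[l]) - α‖ < 1) {δ : ℝ} (hδ1 : 2 * δ ≤ 1) {s : ℕ} {a b a' b' : ℤ}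
    (h : Lam l Q Q2 s a b) (h' : Lam l Q Q2 s a' b') (hdet : a * b' - a' * b ≠ 0)
    (hg : |lg Q Q2 a b| ≤ δ) (hg' : |lg Q Q2 a' b'| ≤ δ) {T : ℝ}
    (ha : |(a : ℝ)| ≤ T) (hb : |(b : ℝ)| ≤ T) (ha' : |(a' : ℝ)| ≤ T) (hb' : |(b' : ℝ)| ≤ T) :
    ∃ e f : ℤ, |((r * ((Q : ℚ) ^ e * (Q2 : ℚ) ^ f) : ℚ) : ℝ) - r| ≤ |(r : ℝ)| * (4 * δ) ∧
      ‖((r * ((Q : ℚ) ^ e * (Q2 : ℚ) ^ f) : ℚ) : ℚ_[l]) - α‖ ≤ (l : ℝ) ^ (-((s + 1 : ℕ) : ℤ)) ∧
      |(e : ℝ)| ≤ 2 * T ∧ |(f : ℝ)| ≤ 2 * T := by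
  have hlp := d.prime
  have hαn : ‖((α : ℤ) : ℚ_[l])‖ = 1 := by
    apply le_antisymm (Padic.norm_int_le_one _)
    by_contra h
    exact hα ((Padic.norm_intCast_lt_one_iff (p := l) (k := α)).1 (lt_of_not_ge h))
  have hrn : ‖(r : ℚ_[l])‖ = 1 := norm_eq_one_of_near hαn hr
  have hr0 : r ≠ 0 := by
    rintro rfl
    simp at hrn
  have hrd : (r : ℚ_[l]) * (r.den : ℚ_[l]) = (r.num : ℚ_[l]) := by
    have := Rat.mul_den_eq_num r
    have h2 := congrArg (fun t : ℚ => (t : ℚ_[l])) this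
    push_cast at h2
    exact h2
  have hden : ‖(r.den : ℚ_[l])‖ = 1 := by
    by_contra h
    have h1 : ‖((r.den : ℤ) : ℚ_[l])‖ < 1 := by
      rcases lt_or_eq_of_le (Padic.norm_int_le_one (p := l) (r.den : ℤ)) with h2 | h2
      · exact h2
      · exact absurd (by simpa using h2) h
    have h2 := (Padic.norm_intCast_lt_one_iff (p := l)).1 h1
    have h3 : ‖((r.num : ℤ) : ℚ_[l])‖ < 1 := by
      rw [← hrd, norm_mul, hrn, one_mul]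
      simpa using h1
    have h4 := (Padic.norm_intCast_lt_one_iff (p := l)).1 h3
    have h5 := r.reduced
    have h6 : l ∣ r.num.natAbs := by
      have := Int.natAbs_dvd_natAbs.2 h4
      simpa using this
    have h7 : l ∣ r.den := by exact_mod_cast h2
    have := Nat.dvd_gcd h6 h7
    rw [Nat.Coprime] at h5
    rw [h5] at this
    exact hlp.one_lt.ne' (Nat.dvd_one.1 this)
  have hnum : ¬ (l : ℤ) ∣ r.num := by
    intro h
    have := (Padic.norm_intCast_lt_one_iff (p := l) (k := r.num)).2 h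
    rw [← hrd, norm_mul, hrn, hden] at this
    linarith
  have hd : (l : ℤ) ∣ r.num - α * r.den := by
    rw [← Padic.norm_intCast_lt_one_iff (p := l)]
    push_cast
    rw [← hrd, ← sub_mul, norm_mul, hden, mul_one]
    exact hr
  obtain ⟨a₀, ha₀l, ha₀⟩ := exists_pow_lt hlp d.ne_two (M := (M : ℤ)) (by exact_mod_cast d.ndvd) hnum hd s
  have hdr : (a : ℝ) * b' - a' * b ≠ 0 := by exact_mod_cast hdet
  obtain ⟨x, hx⟩ : ∃ x : ℝ, x = a₀ * b' / ((a : ℝ) * b' - a' * b) := ⟨_, rfl⟩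
  obtain ⟨y, hy⟩ : ∃ y : ℝ, y = -(a₀ * b) / ((a : ℝ) * b' - a' * b) := ⟨_, rfl⟩
  have hxD : x * ((a : ℝ) * b' - a' * b) = a₀ * b' := by rw [hx]; exact div_mul_cancel₀ _ hdr
  have hyD : y * ((a : ℝ) * b' - a' * b) = -(a₀ * b) := by rw [hy]; exact div_mul_cancel₀ _ hdr
  have e1 : x * a + y * a' = a₀ :=
    mul_left_cancel₀ hdr (by linear_combination (a : ℝ) * hxD + (a' : ℝ) * hyD)
  have e2 : x * b + y * b' = 0 :=
    mul_left_cancel₀ hdr (by linear_combination (b : ℝ) * hxD + (b' : ℝ) * hyD)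
  have ee : ((a₀ + (-⌊x⌋ * a + -⌊y⌋ * a') : ℤ) : ℝ) = Int.fract x * a + Int.fract y * a' := by
    push_cast
    rw [← e1, Int.fract, Int.fract]
    ring
  have ef : ((-⌊x⌋ * b + -⌊y⌋ * b' : ℤ) : ℝ) = Int.fract x * b + Int.fract y * b' := by
    push_cast
    rw [Int.fract, Int.fract]
    linear_combination (-1 : ℝ) * e2
  have hfx0 := Int.fract_nonneg x
  have hfx1 := (Int.fract_lt_one x).le
  have hfy0 := Int.fract_nonneg y
  have hfy1 := (Int.fract_lt_one y).le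
  have hbd : ∀ {u v w : ℝ}, |u| ≤ w → |v| ≤ w → |Int.fract x * u + Int.fract y * v| ≤ 2 * w := by
    intro u v w hu hv
    calc |Int.fract x * u + Int.fract y * v| ≤ |Int.fract x * u| + |Int.fract y * v| := abs_add_le _ _
      _ = Int.fract x * |u| + Int.fract y * |v| := by rw [abs_mul, abs_mul, abs_of_nonneg hfx0, abs_of_nonneg hfy0]
      _ ≤ 1 * w + 1 * w := by gcongr
      _ = 2 * w := by ring
  refine ⟨a₀ + (-⌊x⌋ * a + -⌊y⌋ * a'), -⌊x⌋ * b + -⌊y⌋ * b', ?_, ?_, ?_, ?_⟩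
  · obtain ⟨E, hE⟩ : ∃ E : ℝ, E = Int.fract x * lg Q Q2 a b + Int.fract y * lg Q Q2 a' b' := ⟨_, rfl⟩
    have hEs : |E| ≤ 2 * δ := by rw [hE]; exact hbd hg hg'
    have hexp : ((((Q : ℚ) ^ ((a₀ : ℤ) + (-⌊x⌋ * a + -⌊y⌋ * a')) * (Q2 : ℚ) ^ (-⌊x⌋ * b + -⌊y⌋ * b') : ℚ)) : ℝ)
        = Real.exp E := by
      push_cast
      have hQp : (0 : ℝ) < Q := by have := d.one_lt; positivity
      have hQ2p : (0 : ℝ) < Q2 := by have := d.one_lt2; positivity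
      rw [← Real.rpow_intCast, ← Real.rpow_intCast, Real.rpow_def_of_pos hQp, Real.rpow_def_of_pos hQ2p,
        ← Real.exp_add, ef, ee]
      congr 1
      rw [hE, lg, lg]
      ring
    have h1 : ((r * ((Q : ℚ) ^ ((a₀ : ℤ) + (-⌊x⌋ * a + -⌊y⌋ * a')) * (Q2 : ℚ) ^ (-⌊x⌋ * b + -⌊y⌋ * b')) : ℚ) : ℝ) - r
        = r * (Real.exp E - 1) := by
      rw [Rat.cast_mul, hexp]
      ring
    rw [h1, abs_mul]
    have h2 : |Real.exp E - 1| ≤ 2 * |E| := Real.abs_exp_sub_one_le (by linarith)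
    apply mul_le_mul_of_nonneg_left _ (abs_nonneg _)
    linarith
  · have hxy : Lam l Q Q2 s (-⌊x⌋ * a + -⌊y⌋ * a') (-⌊x⌋ * b + -⌊y⌋ * b') := d.add (d.zmul h _) (d.zmul h' _)
    unfold Lam at hxy
    have hb : ‖(r : ℚ_[l]) * (Q : ℚ_[l]) ^ a₀ - α‖ ≤ (l : ℝ) ^ (-((s + 1 : ℕ) : ℤ)) := by
      have h1 := norm_pow_le (l := l) (s + 1) (n := r.num * (1 + l * (M : ℤ)) ^ a₀ - α * r.den) ha₀
      have h2 : (((r.num * (1 + l * (M : ℤ)) ^ a₀ - α * r.den : ℤ) : ℚ) : ℚ_[l])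
          = (r.den : ℚ_[l]) * ((r : ℚ_[l]) * (Q : ℚ_[l]) ^ a₀ - α) := by
        rw [d.hQ]
        push_cast
        rw [← hrd]
        ring
      rw [h2, norm_mul, hden, one_mul] at h1
      exact h1
    have e : ((r * ((Q : ℚ) ^ ((a₀ : ℤ) + (-⌊x⌋ * a + -⌊y⌋ * a')) * (Q2 : ℚ) ^ (-⌊x⌋ * b + -⌊y⌋ * b')) : ℚ) : ℚ_[l]) - α
        = (r : ℚ_[l]) * (Q : ℚ_[l]) ^ a₀ * ((Q : ℚ_[l]) ^ (-⌊x⌋ * a + -⌊y⌋ * a') * (Q2 : ℚ_[l]) ^ (-⌊x⌋ * b + -⌊y⌋ * b') - 1)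
          + ((r : ℚ_[l]) * (Q : ℚ_[l]) ^ a₀ - α) := by
      rw [Rat.cast_mul, Rat.cast_mul, Rat.cast_zpow, Rat.cast_zpow, Rat.cast_natCast, Rat.cast_natCast,
        zpow_add₀ d.Q_ne (a₀ : ℤ), zpow_natCast]
      ring
    rw [e]
    refine (Padic.nonarchimedean _ _).trans (max_le ?_ hb)
    rw [norm_mul, norm_mul, norm_pow, hrn, d.norm_Q, one_pow, one_mul, one_mul]
    exact hxy
  · rw [ee]; exact hbd ha ha'
  · rw [ef]; exact hbd hb hb'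

end Pool.Agent.Helper80.AO
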