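import Pool.Agent.Helper80.AO.Vec

/-!
# Density with a bound for the exponents (helper80)
-/

set_option autoImplicit false

namespace Pool.Agent.Helper80.AO

open Pool.Agent.Helper80.NE Pool.Agent.Helper80.VO

/-- irrational numbers have good approximations with large denominators -/
theorem exists_den {ξ : ℝ} (hξ : Irrational ξ) (d₀ : ℕ) :
    ∃ q : ℚ, |ξ - q| < 1 / (q.den : ℝ) ^ 2 ∧ d₀ ≤ q.den := by
  by_contra hcon
  push Not at hcon
  apply Real.infinite_rat_abs_sub_lt_one_div_den_sq_of_irrational hξ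
  obtain ⟨M, hM⟩ := exists_nat_ge ((|ξ| + 1) * d₀)
  refine Set.Finite.subset (Set.Finite.image (fun p : ℤ × ℕ => (p.1 : ℚ) / p.2)
    ((Finset.Icc (-(M : ℤ)) M ×ˢ Finset.range d₀).finite_toSet)) ?_
  intro q hq
  have hd := hcon q hq
  have hq1 : |ξ - q| < 1 := by
    refine lt_of_lt_of_le hq ?_
    rw [div_le_one (by have := q.den_pos; positivity)]
    have : (1 : ℝ) ≤ q.den := by exact_mod_cast q.den_pos
    nlinarith
  refine ⟨(q.num, q.den), ?_, Rat.num_div_den q⟩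
  rw [Finset.mem_coe, Finset.mem_product, Finset.mem_Icc, Finset.mem_range]
  have h1 : |(q : ℝ)| ≤ |ξ| + 1 := by
    have : |(q : ℝ)| ≤ |ξ| + |ξ - q| := by
      calc |(q : ℝ)| = |ξ - (ξ - q)| := by congr 1; ring
        _ ≤ |ξ| + |ξ - q| := abs_sub _ _
    linarith
  have h2 : |(q.num : ℝ)| ≤ M := by
    have h3 : (q.num : ℝ) = q * q.den := by exact_mod_cast (Rat.mul_den_eq_num q).symm
    rw [h3, abs_mul, Nat.abs_cast]
    refine le_trans ?_ hM
    apply mul_le_mul h1 (by exact_mod_cast hd.le) (by positivity) (by positivity)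
  have h4 : |q.num| ≤ (M : ℤ) := by exact_mod_cast h2
  exact ⟨abs_le.1 h4, hd⟩

/-- density of the group generated by two numbers, with bounds -/
theorem dense_bound {L₁ L₂ : ℝ} (h1 : 0 < L₁) (h2 : 0 < L₂) (hirr : Irrational (L₁ / L₂)) (q₀ : ℕ) :
    ∃ q : ℕ, q₀ ≤ q ∧ 0 < q ∧ ∀ y : ℝ, ∃ a b : ℤ, |(a : ℝ)| ≤ q ∧
      |(b : ℝ)| ≤ q * (L₁ / L₂) + |y| / L₂ + 2 ∧ |a * L₁ + b * L₂ - y| ≤ 2 * L₂ / q := by
  obtain ⟨r, hr, hd⟩ := exists_den hirr q₀
  refine ⟨r.den, hd, r.den_pos, ?_⟩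
  intro y
  have hq : (0 : ℝ) < r.den := by exact_mod_cast r.den_pos
  have hq1 : (1 : ℝ) ≤ r.den := by exact_mod_cast r.den_pos
  -- `Y = y / L₂`, `c = round (q Y)`
  obtain ⟨Y, hY⟩ : ∃ Y : ℝ, Y = y / L₂ := ⟨_, rfl⟩
  obtain ⟨c, hc⟩ : ∃ c : ℤ, c = round ((r.den : ℝ) * Y) := ⟨_, rfl⟩
  have hc2 : |(r.den : ℝ) * Y - c| ≤ 1 / 2 := by
    rw [hc]
    exact abs_sub_round _
  -- `a p ≡ c` modulo `q`
  have hcop : IsCoprime (r.num) (r.den : ℤ) := by
    rw [Int.isCoprime_iff_gcd_eq_one]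
    exact r.reduced
  obtain ⟨u, v, huv⟩ := hcop
  obtain ⟨a, ha⟩ : ∃ a : ℤ, a = (c * u) % r.den := ⟨_, rfl⟩
  have hdz : (r.den : ℤ) ≠ 0 := by exact_mod_cast r.den_nz
  have ha0 : 0 ≤ a := by rw [ha]; exact Int.emod_nonneg _ hdz
  have ha1 : a < r.den := by rw [ha]; exact Int.emod_lt_of_pos _ (by exact_mod_cast r.den_pos)
  obtain ⟨k, hk⟩ : ∃ k : ℤ, a * r.num = c + r.den * k := by
    have h3 := Int.emod_add_mul_ediv (c * u) r.den
    rw [← ha] at h3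
    refine ⟨-(c * v) - (c * u / r.den) * r.num, ?_⟩
    have h4 : a = c * u - r.den * (c * u / r.den) := by linarith
    rw [h4]
    have h5 : c * u * r.num = c - c * v * r.den := by
      have : c * (u * r.num + v * r.den) = c := by rw [huv, mul_one]
      linarith
    linear_combination h5
  have hkey : |(a : ℝ) * (L₁ / L₂) - k - Y| ≤ 2 / r.den := by
    have hrr : (r : ℝ) * r.den = r.num := by exact_mod_cast Rat.mul_den_eq_num r
    have hkr : (a : ℝ) * r.num = c + r.den * k := by exact_mod_cast hk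
    have e : (a : ℝ) * (L₁ / L₂) - k - Y = a * (L₁ / L₂ - r) + (c - r.den * Y) / r.den := by
      have : (a : ℝ) * r = (c + r.den * k) / r.den := by
        rw [← hkr, ← hrr]
        field_simp
      rw [mul_sub, this]
      field_simp
      ring
    rw [e]
    have e1 : |(a : ℝ) * (L₁ / L₂ - r)| ≤ 1 / r.den := by
      rw [abs_mul, abs_of_nonneg (by exact_mod_cast ha0 : (0 : ℝ) ≤ a)]
      have h6 : (a : ℝ) ≤ r.den := by exact_mod_cast ha1.le
      calc (a : ℝ) * |L₁ / L₂ - r| ≤ r.den * (1 / (r.den : ℝ) ^ 2) := by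
            apply mul_le_mul h6 hr.le (abs_nonneg _) hq.le
        _ = 1 / r.den := by field_simp
    have e2 : |((c : ℝ) - r.den * Y) / r.den| ≤ 1 / r.den := by
      rw [abs_div, abs_of_pos hq]
      apply div_le_div_of_nonneg_right _ hq.le
      rw [abs_sub_comm]
      linarith
    calc _ ≤ |(a : ℝ) * (L₁ / L₂ - r)| + |((c : ℝ) - r.den * Y) / r.den| := abs_add_le _ _
      _ ≤ 1 / r.den + 1 / r.den := add_le_add e1 e2
      _ = 2 / r.den := by ring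
  refine ⟨a, -k, ?_, ?_, ?_⟩
  · rw [abs_of_nonneg (by exact_mod_cast ha0 : (0 : ℝ) ≤ a)]
    exact_mod_cast ha1.le
  · push_cast
    rw [abs_neg]
    have h7 : |Y| = |y| / L₂ := by rw [hY, abs_div, abs_of_pos h2]
    have h8 : |(k : ℝ)| ≤ |(a : ℝ) * (L₁ / L₂)| + |Y| + 2 / r.den := by
      have : (k : ℝ) = a * (L₁ / L₂) - Y - (a * (L₁ / L₂) - k - Y) := by ring
      calc |(k : ℝ)| = |a * (L₁ / L₂) - Y - (a * (L₁ / L₂) - k - Y)| := by rw [← this]
        _ ≤ |a * (L₁ / L₂) - Y| + |a * (L₁ / L₂) - k - Y| := abs_sub _ _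
        _ ≤ |a * (L₁ / L₂)| + |Y| + 2 / r.den := add_le_add (abs_sub _ _) hkey
    have h9 : |(a : ℝ) * (L₁ / L₂)| ≤ r.den * (L₁ / L₂) := by
      rw [abs_of_nonneg (by positivity)]
      apply mul_le_mul_of_nonneg_right _ (by positivity)
      exact_mod_cast ha1.le
    have h10 : 2 / (r.den : ℝ) ≤ 2 := div_le_self (by norm_num) hq1
    rw [← h7]
    linarith
  · push_cast
    have e : (a : ℝ) * L₁ + -k * L₂ - y = L₂ * (a * (L₁ / L₂) - k - Y) := by
      rw [hY]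
      field_simp
      ring
    rw [e, abs_mul, abs_of_pos h2]
    calc L₂ * |(a : ℝ) * (L₁ / L₂) - k - Y| ≤ L₂ * (2 / r.den) := by gcongr
      _ = 2 * L₂ / r.den := by ring

/-- every class congruent to one modulo `ℓ` is a small power of `1 + ℓ M` modulo `ℓ ^ (n + 1)` -/
theorem exists_pow_lt {l : ℕ} (hl : l.Prime) (hl2 : l ≠ 2) {M : ℤ} (hM : ¬ (l : ℤ) ∣ M) {u v : ℤ}
    (hv : ¬ (l : ℤ) ∣ v) (huv : (l : ℤ) ∣ v - u) (n : ℕ) :
    ∃ a : ℕ, a < l ^ n ∧ (l : ℤ) ^ (n + 1) ∣ v * (1 + l * M) ^ a - u := by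
  obtain ⟨a, ha⟩ := exists_pow hl hl2 hM hv huv n
  obtain ⟨h, -, he⟩ := pow_ell hl hl2 hM n
  refine ⟨a % l ^ n, Nat.mod_lt _ (pow_pos hl.pos _), ?_⟩
  have h1 : (l : ℤ) ^ (n + 1) ∣ ((1 + l * M) ^ (l ^ n)) ^ (a / l ^ n) - 1 := by
    have h2 : (l : ℤ) ^ (n + 1) ∣ (1 + l * M) ^ (l ^ n) - 1 := by
      rw [he, add_sub_cancel_left]
      exact Dvd.intro _ rfl
    have h3 := sub_dvd_pow_sub_pow ((1 + (l : ℤ) * M) ^ (l ^ n)) 1 (a / l ^ n)
    rw [one_pow] at h3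
    exact h2.trans h3
  have e : v * (1 + l * M) ^ (a % l ^ n) - u = (v * (1 + l * M) ^ a - u)
      - v * (1 + l * M) ^ (a % l ^ n) * (((1 + l * M) ^ (l ^ n)) ^ (a / l ^ n) - 1) := by
    have : (1 + (l : ℤ) * M) ^ a = (1 + l * M) ^ (a % l ^ n) * ((1 + l * M) ^ (l ^ n)) ^ (a / l ^ n) := by
      rw [← pow_mul, ← pow_add, Nat.mod_add_div]
    rw [this]
    ring
  rw [e]
  exact dvd_sub ha (Dvd.dvd.mul_left h1 _)

end Pool.Agent.Helper80.AO
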