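import Pool.Agent.Helper80.AO.Vec2

/-!
# The height and the radical of the points (helper80)
-/

set_option autoImplicit false

namespace Pool.Agent.Helper80.AO

/-- the height -/
noncomputable def height {n : ℕ} (z : Fin n → ℤ) : ℝ :=
  Real.log ((Finset.univ.sup fun i => (z i).natAbs : ℕ) : ℝ) -
    Real.log ((Finset.univ.gcd fun i => (z i).natAbs : ℕ) : ℝ)

/-- the radical -/
noncomputable def radical {n : ℕ} (z : Fin n → ℤ) : ℝ :=
  ∑ p ∈ (∏ i, (z i).natAbs).primeFactors with (∃ i j, padicValInt p (z i) ≠ padicValInt p (z j)),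
    Real.log p

theorem sum_log_primeFactors (n : ℕ) :
    ∑ p ∈ n.primeFactors, Real.log p = Real.log ((∏ p ∈ n.primeFactors, p : ℕ) : ℝ) := by
  push_cast
  rw [Real.log_prod]
  intro p hp
  have := (Nat.prime_of_mem_primeFactors hp).pos
  positivity

theorem rad_le_self {n : ℕ} (hn : n ≠ 0) : ∑ p ∈ n.primeFactors, Real.log p ≤ Real.log n := by
  rw [sum_log_primeFactors]
  have h1 : ∏ p ∈ n.primeFactors, p ≤ n := Nat.le_of_dvd (Nat.pos_of_ne_zero hn) (Nat.prod_primeFactors_dvd n)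
  have h0 : 0 < ∏ p ∈ n.primeFactors, p := Finset.prod_pos fun p hp => (Nat.prime_of_mem_primeFactors hp).pos
  exact Real.log_le_log (by exact_mod_cast h0) (by exact_mod_cast h1)

theorem rad_gain {l s n : ℕ} (hl : l.Prime) (hn : n ≠ 0) (hd : l ^ (s + 1) ∣ n) :
    ∑ p ∈ n.primeFactors, Real.log p + s * Real.log l ≤ Real.log n := by
  obtain ⟨k, hk⟩ := hd
  have hk0 : k ≠ 0 := by rintro rfl; apply hn; rw [hk]; simp
  have e : n.primeFactors = (l * k).primeFactors := by
    rw [hk, Nat.primeFactors_mul (pow_ne_zero _ hl.ne_zero) hk0, Nat.primeFactors_mul hl.ne_zero hk0,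
      Nat.primeFactors_pow _ (Nat.succ_ne_zero s)]
  have h1 := rad_le_self (mul_ne_zero hl.ne_zero hk0)
  rw [e]
  have h2 : Real.log n = Real.log ((l * k : ℕ) : ℝ) + s * Real.log l := by
    rw [hk]
    push_cast
    have hlr : (l : ℝ) ≠ 0 := by exact_mod_cast hl.ne_zero
    have hkr : (k : ℝ) ≠ 0 := by exact_mod_cast hk0
    rw [Real.log_mul (pow_ne_zero _ hlr) hkr, Real.log_mul hlr hkr, Real.log_pow]
    push_cast
    ring
  rw [h2]
  linarith

theorem gain {m : ℕ} (hm : 1 ≤ m) {l N : ℕ} [hl : Fact l.Prime] (hN : N ≠ 0) {s : ℕ} {w : Fin m → ℚ}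
    (hw0 : ∀ i, w i ≠ 0)
    (hwN : ∀ i, ∀ p : ℕ, p.Prime → ¬ p ∣ N → ¬ p ∣ (w i).num.natAbs ∧ ¬ p ∣ (w i).den)
    (hwl : ∀ i, ‖(w i : ℚ_[l])‖ = 1)
    (hs : ‖((∑ i, w i : ℚ) : ℚ_[l])‖ ≤ (l : ℝ) ^ (-((s + 1 : ℕ) : ℤ))) (hsum : ∑ i, w i ≠ 0) :
    ∃ (z : Fin (m + 1) → ℤ) (t : ℚ), (Finset.univ.gcd fun i => (z i).natAbs) = 1 ∧ (∀ i, z i ≠ 0) ∧
      ∑ i, z i = 0 ∧ (∀ i : Fin m, t * z i.castSucc = w i) ∧ t * z (Fin.last m) = - ∑ i, w i ∧
      (∀ i : Fin m, ∀ p : ℕ, p.Prime → (p : ℤ) ∣ z i.castSucc → p ∣ N) ∧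
      (∀ W : ℝ, 0 < W → (∀ i, |(w i : ℝ)| ≤ W) → |((∑ i, w i : ℚ) : ℝ)| ≤ W →
        height z ≤ Real.log W + ∑ i, Real.log (w i).den) ∧
      radical z + s * Real.log l ≤ height z + Real.log N := by
  classical
  obtain ⟨D, hD⟩ : ∃ D : ℕ, D = ∏ i, (w i).den := ⟨_, rfl⟩
  have hD0 : D ≠ 0 := by
    rw [hD]
    exact Finset.prod_ne_zero_iff.2 fun i _ => (w i).den_nz
  have hdD : ∀ i, (w i).den ∣ D := fun i => by
    rw [hD]
    exact Finset.dvd_prod_of_mem (fun i => (w i).den) (Finset.mem_univ i)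
  obtain ⟨W', hW'⟩ : ∃ W' : Fin m → ℤ, ∀ i, W' i = (w i).num * ((D / (w i).den : ℕ) : ℤ) :=
    ⟨fun i => (w i).num * ((D / (w i).den : ℕ) : ℤ), fun i => rfl⟩
  have hWq : ∀ i, (W' i : ℚ) = D * w i := by
    intro i
    rw [hW']
    obtain ⟨k, hk⟩ := hdD i
    have h1 := Rat.mul_den_eq_num (w i)
    have h3 : D / (w i).den = k := by rw [hk]; exact Nat.mul_div_cancel_left k (w i).den_pos
    rw [h3, hk]
    push_cast
    rw [← h1]
    ring
  obtain ⟨W, hW1, hW2⟩ : ∃ W : Fin (m + 1) → ℤ, (∀ i : Fin m, W i.castSucc = W' i) ∧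
      W (Fin.last m) = - ∑ i, W' i :=
    ⟨Fin.snoc (α := fun _ => ℤ) W' (- ∑ i, W' i), fun i => by simp, by simp⟩
  obtain ⟨z, hz1, hz2⟩ := Finset.extract_gcd W (Finset.univ_nonempty (α := Fin (m + 1)))
  obtain ⟨G, hG⟩ : ∃ G : ℤ, G = Finset.univ.gcd W := ⟨_, rfl⟩
  rw [← hG] at hz1
  have hDq : (D : ℚ) ≠ 0 := by exact_mod_cast hD0
  have hsc : ∀ i : Fin m, (G : ℚ) / D * z i.castSucc = w i := by
    intro i
    have h1 := hz1 i.castSucc (Finset.mem_univ _)
    rw [hW1] at h1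
    have h2 := congrArg (fun t : ℤ => (t : ℚ)) h1
    simp only [hWq, Int.cast_mul] at h2
    field_simp
    linarith
  have hlast : (G : ℚ) / D * z (Fin.last m) = - ∑ i, w i := by
    have h1 := hz1 (Fin.last m) (Finset.mem_univ _)
    rw [hW2] at h1
    have h2 := congrArg (fun t : ℤ => (t : ℚ)) h1
    simp only [Int.cast_neg, Int.cast_sum, hWq, Int.cast_mul, ← Finset.mul_sum] at h2
    field_simp
    linarith
  have hG0 : G ≠ 0 := by
    rintro rfl
    have h := hsc ⟨0, by omega⟩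
    simp at h
    exact hw0 _ h.symm
  have hzc : ∀ i : Fin m, z i.castSucc ≠ 0 := by
    intro i h0
    have h := hsc i
    rw [h0] at h
    simp at h
    exact hw0 _ h.symm
  have hzl : z (Fin.last m) ≠ 0 := by
    intro h0
    rw [h0] at hlast
    simp at hlast
    exact hsum hlast
  have hz0 : ∀ i, z i ≠ 0 := by
    intro i
    refine Fin.lastCases hzl (fun j => hzc j) i
  have hgcd : (Finset.univ.gcd fun i => (z i).natAbs) = 1 := by
    have h1 : (((Finset.univ.gcd fun i => (z i).natAbs : ℕ)) : ℤ) ∣ Finset.univ.gcd z := by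
      apply Finset.dvd_gcd
      intro i hi
      have := Finset.gcd_dvd (f := fun i => (z i).natAbs) hi
      exact Int.natCast_dvd.2 this
    rw [hz2] at h1
    exact Nat.dvd_one.1 (by exact_mod_cast h1)
  have hprime : ∀ i : Fin m, ∀ p : ℕ, p.Prime → (p : ℤ) ∣ z i.castSucc → p ∣ N := by
    intro i p hp hd
    by_contra hpN
    have h1 : (p : ℤ) ∣ W' i := by
      rw [← hW1, hz1 _ (Finset.mem_univ _)]
      exact Dvd.dvd.mul_left hd _
    rw [hW'] at h1
    have hpp : Prime (p : ℤ) := Nat.prime_iff_prime_int.mp hp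
    rcases hpp.dvd_or_dvd h1 with h2 | h2
    · have : p ∣ (w i).num.natAbs := by
        have := Int.natAbs_dvd_natAbs.2 h2
        simpa using this
      exact (hwN i p hp hpN).1 this
    · have h3 : p ∣ D / (w i).den := by exact_mod_cast h2
      have h4 : p ∣ D := h3.trans (Nat.div_dvd_of_dvd (hdD i))
      rw [hD] at h4
      obtain ⟨j, -, hj⟩ := (hp.prime.dvd_finsetProd_iff _).1 h4
      exact (hwN j p hp hpN).2 hj
  refine ⟨z, (G : ℚ) / D, hgcd, hz0, ?_, hsc, hlast, hprime, ?_, ?_⟩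
  · have h1 : (G : ℚ) / D * ((∑ i, z i : ℤ) : ℚ) = 0 := by
      push_cast
      rw [Fin.sum_univ_castSucc, mul_add, Finset.mul_sum, hlast]
      simp only [hsc]
      ring
    rcases mul_eq_zero.1 h1 with h2 | h2
    · exfalso
      rcases div_eq_zero_iff.1 h2 with h3 | h3
      · exact hG0 (by exact_mod_cast h3)
      · exact hDq h3
    · exact_mod_cast h2
  · intro W hW hwW hsW
    have hDr : (0 : ℝ) < D := by exact_mod_cast Nat.pos_of_ne_zero hD0
    have hG1 : (1 : ℝ) ≤ |(G : ℝ)| := by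
      have : (1 : ℤ) ≤ |G| := Int.one_le_abs hG0
      exact_mod_cast this
    have hkey : ∀ (a : ℤ) (v : ℚ), (G : ℚ) / D * a = v → |(v : ℝ)| ≤ W → |(a : ℝ)| ≤ W * D := by
      intro a v h hv
      have h1 : (G : ℝ) * a = v * D := by
        have h2 := congrArg (fun t : ℚ => (t : ℝ)) h
        push_cast at h2
        rw [← h2]
        field_simp
      calc |(a : ℝ)| ≤ |(G : ℝ)| * |(a : ℝ)| := le_mul_of_one_le_left (abs_nonneg _) hG1
        _ = |(v : ℝ)| * D := by rw [← abs_mul, h1, abs_mul, abs_of_pos hDr]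
        _ ≤ W * D := by gcongr
    have hall : ∀ i, |(z i : ℝ)| ≤ W * D := by
      intro i
      refine Fin.lastCases ?_ (fun j => ?_) i
      · apply hkey _ _ hlast
        rw [Rat.cast_neg, abs_neg]
        exact hsW
      · exact hkey _ _ (hsc j) (hwW j)
    obtain ⟨i, -, hi⟩ := Finset.exists_mem_eq_sup Finset.univ (Finset.univ_nonempty (α := Fin (m + 1)))
      (fun i => (z i).natAbs)
    unfold height
    rw [hgcd, Nat.cast_one, Real.log_one, sub_zero, hi]
    have h1 : (((z i).natAbs : ℕ) : ℝ) ≤ W * D := by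
      rw [Nat.cast_natAbs, Int.cast_abs]
      exact hall i
    have h2 : (0 : ℝ) < (((z i).natAbs : ℕ) : ℝ) := by
      have := Int.natAbs_pos.2 (hz0 i)
      exact_mod_cast this
    calc Real.log (((z i).natAbs : ℕ) : ℝ) ≤ Real.log (W * D) := Real.log_le_log h2 h1
      _ = Real.log W + Real.log D := Real.log_mul hW.ne' hDr.ne'
      _ = _ := by
        congr 1
        rw [hD]
        push_cast
        rw [Real.log_prod]
        intro i _
        have := (w i).den_pos
        positivity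
  · -- the power of `l` in the last coordinate
    have ht : 1 ≤ ‖(((G : ℚ) / D : ℚ) : ℚ_[l])‖ := by
      have h1 := hwl ⟨0, by omega⟩
      rw [← hsc ⟨0, by omega⟩, Rat.cast_mul, norm_mul] at h1
      have h2 : ‖(((z (Fin.castSucc ⟨0, by omega⟩) : ℤ) : ℚ) : ℚ_[l])‖ ≤ 1 := by
        have := Padic.norm_int_le_one (p := l) (z (Fin.castSucc ⟨0, by omega⟩))
        simpa using this
      by_contra h3
      rw [not_le] at h3
      have : ‖(((G : ℚ) / D : ℚ) : ℚ_[l])‖ * ‖(((z (Fin.castSucc ⟨0, by omega⟩) : ℤ) : ℚ) : ℚ_[l])‖ < 1 := by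
        calc _ ≤ ‖(((G : ℚ) / D : ℚ) : ℚ_[l])‖ * 1 := by gcongr
          _ < 1 := by linarith
      linarith
    have hdv : ((l : ℤ) ^ (s + 1)) ∣ z (Fin.last m) := by
      have h1 : ‖(((z (Fin.last m) : ℤ) : ℚ_[l]))‖ ≤ (l : ℝ) ^ (-((s + 1 : ℕ) : ℤ)) := by
        have h2 : ‖(((G : ℚ) / D : ℚ) : ℚ_[l])‖ * ‖(((z (Fin.last m) : ℤ) : ℚ) : ℚ_[l])‖
            ≤ (l : ℝ) ^ (-((s + 1 : ℕ) : ℤ)) := by
          rw [← norm_mul, ← Rat.cast_mul, hlast, Rat.cast_neg, norm_neg]
          exact hs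
        have h3 : ‖(((z (Fin.last m) : ℤ) : ℚ) : ℚ_[l])‖ = ‖(((z (Fin.last m) : ℤ) : ℚ_[l]))‖ := by
          simp
        rw [h3] at h2
        refine le_trans ?_ h2
        exact le_mul_of_one_le_left (norm_nonneg _) ht
      have := (Padic.norm_int_le_pow_iff_dvd (p := l) (z (Fin.last m)) (s + 1)).1 h1
      exact_mod_cast this
    have hdv' : l ^ (s + 1) ∣ (z (Fin.last m)).natAbs := by
      have := Int.natAbs_dvd_natAbs.2 hdv
      rw [Int.natAbs_pow, Int.natAbs_natCast] at this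
      exact this
    have hzl' : (z (Fin.last m)).natAbs ≠ 0 := by simpa using hzl
    have hg := rad_gain hl.out hzl' hdv'
    have hN1 := rad_le_self hN
    have hrad : radical z ≤ ∑ p ∈ N.primeFactors, Real.log p
        + ∑ p ∈ ((z (Fin.last m)).natAbs).primeFactors, Real.log p := by
      have hsub : ((∏ i, (z i).natAbs).primeFactors.filter
          (fun p => ∃ i j, padicValInt p (z i) ≠ padicValInt p (z j))) ⊆
          N.primeFactors ∪ ((z (Fin.last m)).natAbs).primeFactors := by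
        intro p hp
        rw [Finset.mem_filter] at hp
        have hpp := Nat.prime_of_mem_primeFactors hp.1
        have hpd := Nat.dvd_of_mem_primeFactors hp.1
        obtain ⟨i, -, hi⟩ := (hpp.prime.dvd_finsetProd_iff _).1 hpd
        rw [Finset.mem_union, Nat.mem_primeFactors, Nat.mem_primeFactors]
        revert hi
        refine Fin.lastCases (fun hi => Or.inr ⟨hpp, hi, hzl'⟩) (fun j hi => Or.inl ⟨hpp, ?_, hN⟩) i
        exact hprime j p hpp (Int.natCast_dvd.2 hi)
      have hnn : ∀ p ∈ N.primeFactors ∪ ((z (Fin.last m)).natAbs).primeFactors, (0 : ℝ) ≤ Real.log p := by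
        intro p hp
        exact Real.log_natCast_nonneg p
      calc radical z ≤ ∑ p ∈ N.primeFactors ∪ ((z (Fin.last m)).natAbs).primeFactors, Real.log p :=
            Finset.sum_le_sum_of_subset_of_nonneg hsub fun p hp _ => hnn p hp
        _ ≤ _ := by
            rw [← Finset.sum_union_inter]
            have : (0 : ℝ) ≤ ∑ p ∈ N.primeFactors ∩ ((z (Fin.last m)).natAbs).primeFactors, Real.log p :=
              Finset.sum_nonneg fun p _ => Real.log_natCast_nonneg p
            linarith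
    have hh : Real.log ((z (Fin.last m)).natAbs : ℝ) ≤ height z := by
      unfold height
      rw [hgcd, Nat.cast_one, Real.log_one, sub_zero]
      apply Real.log_le_log (by exact_mod_cast Nat.pos_of_ne_zero hzl')
      exact_mod_cast Finset.le_sup (f := fun i => (z i).natAbs) (Finset.mem_univ (Fin.last m))
    linarith

end Pool.Agent.Helper80.AO
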