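import Pool.Agent.Helper80.AO.Lam

/-!
# Two short independent relations in a narrow strip (helper80)
-/

set_option autoImplicit false

namespace Pool.Agent.Helper80.AO

variable {l M Q Q2 : ℕ} [Fact l.Prime]

/-- the logarithm of `Q ^ a * Q2 ^ b` -/
noncomputable def lg (Q Q2 : ℕ) (a b : ℤ) : ℝ := a * Real.log Q + b * Real.log Q2

theorem Dat.lg_ne (d : Dat l M Q Q2) {a b : ℤ} (hb : 0 < b) : lg Q Q2 a b ≠ 0 := by
  intro h
  unfold lg at h
  have h1 := (indep_log d.one_lt d.one_lt2 d.coprime a (-b) (by push_cast; linarith)).2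
  omega

theorem Dat.escape (d : Dat l M Q Q2) {a b : ℤ} (hb : 0 < b) : ∃ s₀ : ℕ, ∀ s, s₀ ≤ s → ¬ Lam l Q Q2 s a b := by
  have hne : (Q : ℚ_[l]) ^ a * (Q2 : ℚ_[l]) ^ b - 1 ≠ 0 := by
    intro h
    have h1 : (((Q : ℚ) ^ a * (Q2 : ℚ) ^ b : ℚ) : ℚ_[l]) = ((1 : ℚ) : ℚ_[l]) := by
      push_cast
      linear_combination h
    have h2 : (Q : ℚ) ^ a * (Q2 : ℚ) ^ b = 1 := by exact_mod_cast h1
    have h3 : (Q : ℝ) ^ a * (Q2 : ℝ) ^ b = 1 := by
      have := congrArg (fun t : ℚ => (t : ℝ)) h2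
      push_cast at this
      exact this
    have hQ : (0 : ℝ) < Q := by have := d.one_lt; positivity
    have hQ2 : (0 : ℝ) < Q2 := by have := d.one_lt2; positivity
    have h4 := congrArg Real.log h3
    rw [Real.log_mul (zpow_ne_zero _ hQ.ne') (zpow_ne_zero _ hQ2.ne'), Real.log_zpow, Real.log_zpow,
      Real.log_one] at h4
    exact d.lg_ne hb h4
  have hpos := norm_pos_iff.2 hne
  obtain ⟨n, hn⟩ := exists_pow_lt_of_lt_one hpos
    (inv_lt_one_of_one_lt₀ (show (1 : ℝ) < l by exact_mod_cast d.prime.one_lt))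
  refine ⟨n, fun s hs h => ?_⟩
  unfold Lam at h
  have h1 : (l : ℝ) ^ (-((s + 1 : ℕ) : ℤ)) ≤ ((l : ℝ)⁻¹) ^ n := by
    rw [zpow_neg, zpow_natCast, ← inv_pow]
    apply pow_le_pow_of_le_one (by positivity) (inv_le_one_of_one_le₀ (by exact_mod_cast d.prime.one_lt.le))
    omega
  linarith

theorem Dat.good (d : Dat l M Q Q2) {δ : ℝ} (hδ : 0 < δ) : ∃ C : ℝ, 0 < C ∧ ∀ s₀ : ℕ, ∃ s : ℕ, s₀ ≤ s ∧
    ∃ a b a' b' : ℤ, Lam l Q Q2 s a b ∧ Lam l Q Q2 s a' b' ∧ a * b' - a' * b ≠ 0 ∧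
      |lg Q Q2 a b| ≤ δ ∧ |lg Q Q2 a' b'| ≤ δ ∧ |(a : ℝ)| ≤ C * (l : ℝ) ^ s ∧ |(b : ℝ)| ≤ C * (l : ℝ) ^ s ∧
      |(a' : ℝ)| ≤ C * (l : ℝ) ^ s ∧ |(b' : ℝ)| ≤ C * (l : ℝ) ^ s := by
  classical
  have hL1 : 0 < Real.log Q := Real.log_pos (by exact_mod_cast d.one_lt)
  have hL2 : 0 < Real.log Q2 := Real.log_pos (by exact_mod_cast d.one_lt2)
  have hl0 : (0 : ℝ) < l := by exact_mod_cast d.prime.pos
  obtain ⟨B₁, hB₁, hdir₁⟩ := d.dir hδ
  -- the minimal relations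
  have hmin : ∀ s : ℕ, ∃ b : ℕ, (0 < b ∧ ∃ a : ℤ, Lam l Q Q2 s a b ∧ |lg Q Q2 a b| ≤ δ) ∧
      (b : ℝ) ≤ B₁ * (l : ℝ) ^ s ∧
      ∀ b' : ℕ, 0 < b' → (∃ a : ℤ, Lam l Q Q2 s a b' ∧ |lg Q Q2 a b'| ≤ δ) → b ≤ b' := by
    intro s
    obtain ⟨a₁, b₁, hb₁, hb₁B, hLam₁, hlg₁⟩ := hdir₁ s
    have hex : ∃ b : ℕ, 0 < b ∧ ∃ a : ℤ, Lam l Q Q2 s a b ∧ |lg Q Q2 a b| ≤ δ := by
      refine ⟨b₁.toNat, by omega, a₁, ?_⟩
      rw [Int.toNat_of_nonneg hb₁.le]
      exact ⟨hLam₁, hlg₁⟩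
    refine ⟨Nat.find hex, Nat.find_spec hex, ?_, fun b' hb' h => Nat.find_min' hex ⟨hb', h⟩⟩
    have h1 : Nat.find hex ≤ b₁.toNat := by
      apply Nat.find_min' hex
      refine ⟨by omega, a₁, ?_⟩
      rw [Int.toNat_of_nonneg hb₁.le]
      exact ⟨hLam₁, hlg₁⟩
    have h2 : ((Nat.find hex : ℕ) : ℤ) ≤ b₁ := by omega
    have h3 : ((Nat.find hex : ℕ) : ℝ) ≤ b₁ := by exact_mod_cast h2
    linarith
  choose bb hbb hbbB hbbmin using hmin
  have hb0 : ∀ s, 0 < bb s := fun s => (hbb s).1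
  have ha := fun s => (hbb s).2
  choose aa haa using ha
  have hb0r : ∀ s, (0 : ℝ) < bb s := fun s => by exact_mod_cast hb0 s
  obtain ⟨c₁, hc₁⟩ : ∃ c₁ : ℝ, c₁ = Real.log Q / (B₁ * (1 + l)) := ⟨_, rfl⟩
  have hc₁0 : 0 < c₁ := by rw [hc₁]; positivity
  by_cases H : ∀ s₀ : ℕ, ∃ s : ℕ, s₀ ≤ s ∧ c₁ ≤ |lg Q Q2 (aa s) (bb s)|
  · obtain ⟨B₂, hB₂, hdir₂⟩ := d.dir (show 0 < min (c₁ / 2) δ from lt_min (by linarith) hδ)
    refine ⟨B₁ + B₂ + (δ + (B₁ + B₂) * Real.log Q2) / Real.log Q, by positivity, fun s₀ => ?_⟩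
    obtain ⟨s, hs, hcs⟩ := H s₀
    obtain ⟨a', b', hb', hb'B, hLam', hlg'⟩ := hdir₂ s
    have hlg'1 : |lg Q Q2 a' b'| ≤ δ := hlg'.trans (min_le_right _ _)
    have hlg'2 : |lg Q Q2 a' b'| ≤ c₁ / 2 := hlg'.trans (min_le_left _ _)
    have hT1 : 1 ≤ (l : ℝ) ^ s := one_le_pow₀ (by exact_mod_cast d.prime.one_lt.le)
    have hb'r : (0 : ℝ) < b' := by exact_mod_cast hb'
    have bnd : ∀ (a b : ℤ) (B : ℝ), 0 ≤ B → B ≤ B₁ + B₂ → |(b : ℝ)| ≤ B * (l : ℝ) ^ s → |lg Q Q2 a b| ≤ δ →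
        |(a : ℝ)| ≤ (B₁ + B₂ + (δ + (B₁ + B₂) * Real.log Q2) / Real.log Q) * (l : ℝ) ^ s ∧
        |(b : ℝ)| ≤ (B₁ + B₂ + (δ + (B₁ + B₂) * Real.log Q2) / Real.log Q) * (l : ℝ) ^ s := by
      intro a b B hB0 hB hb hlg
      have h1 : |(b : ℝ)| ≤ (B₁ + B₂) * (l : ℝ) ^ s := hb.trans (by gcongr)
      have h0 : 0 ≤ (δ + (B₁ + B₂) * Real.log Q2) / Real.log Q := by positivity
      constructor
      · have h2 : (a : ℝ) = (lg Q Q2 a b - b * Real.log Q2) / Real.log Q := by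
          unfold lg
          field_simp
          ring
        have h3 : |(a : ℝ)| ≤ (δ + (B₁ + B₂) * Real.log Q2) / Real.log Q * (l : ℝ) ^ s := by
          rw [h2, abs_div, abs_of_pos hL1, div_mul_eq_mul_div, div_le_div_iff_of_pos_right hL1]
          calc |lg Q Q2 a b - b * Real.log Q2| ≤ |lg Q Q2 a b| + |b * Real.log Q2| := abs_sub _ _
            _ ≤ δ + (B₁ + B₂) * (l : ℝ) ^ s * Real.log Q2 := by
                rw [abs_mul, abs_of_pos hL2]
                gcongr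
            _ ≤ (δ + (B₁ + B₂) * Real.log Q2) * (l : ℝ) ^ s := by nlinarith
        have h4 : 0 ≤ (B₁ + B₂) * (l : ℝ) ^ s := by positivity
        nlinarith
      · have h4 : 0 ≤ (δ + (B₁ + B₂) * Real.log Q2) / Real.log Q * (l : ℝ) ^ s := by positivity
        nlinarith
    have hv := bnd (aa s) (bb s) B₁ hB₁.le (by linarith) (by
      push_cast
      rw [Nat.abs_cast]
      exact hbbB s) (haa s).2
    have hw := bnd a' b' B₂ hB₂.le (by linarith) (by rw [abs_of_pos hb'r]; exact hb'B) hlg'1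
    refine ⟨s, hs, aa s, bb s, a', b', (haa s).1, hLam', ?_, (haa s).2, hlg'1, hv.1, hv.2, hw.1, hw.2⟩
    intro hdet
    have h1 : lg Q Q2 a' b' * bb s = lg Q Q2 (aa s) (bb s) * b' := by
      have h2 : (a' : ℝ) * bb s = aa s * b' := by
        have h3 : a' * (bb s : ℤ) = aa s * b' := by linarith
        exact_mod_cast h3
      unfold lg
      push_cast
      linear_combination (Real.log Q) * h2
    have h2 : |lg Q Q2 a' b'| * bb s = |lg Q Q2 (aa s) (bb s)| * b' := by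
      have := congrArg (fun t : ℝ => |t|) h1
      simp only [abs_mul] at this
      rw [abs_of_pos hb'r, Nat.abs_cast] at this
      exact this
    have h3 : bb s ≤ b'.toNat := by
      apply hbbmin s _ (by omega)
      refine ⟨a', ?_⟩
      rw [Int.toNat_of_nonneg hb'.le]
      exact ⟨hLam', hlg'1⟩
    have h4 : (bb s : ℝ) ≤ b' := by
      have : ((bb s : ℕ) : ℤ) ≤ b' := by omega
      exact_mod_cast this
    have h5 := hb0r s
    nlinarith
  · exfalso
    push Not at H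
    obtain ⟨s₀, hs₀⟩ := H
    have hstep : ∀ s, s₀ ≤ s → aa s * (bb (s + 1) : ℤ) = aa (s + 1) * (bb s : ℤ) := by
      intro s hs
      have h1 := d.det (haa s).1 (Lam.mono d.prime (Nat.le_succ s) (haa (s + 1)).1)
      have h2 : |aa s * (bb (s + 1) : ℤ) - aa (s + 1) * (bb s : ℤ)| < (l : ℤ) ^ s := by
        have h3 := hs₀ s hs
        have h4 := hs₀ (s + 1) (by omega)
        have h5 : Real.log Q * ((aa s * (bb (s + 1) : ℤ) - aa (s + 1) * (bb s : ℤ) : ℤ) : ℝ)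
            = lg Q Q2 (aa s) (bb s) * bb (s + 1) - lg Q Q2 (aa (s + 1)) (bb (s + 1)) * bb s := by
          unfold lg
          push_cast
          ring
        have h6 : Real.log Q * |((aa s * (bb (s + 1) : ℤ) - aa (s + 1) * (bb s : ℤ) : ℤ) : ℝ)|
            < Real.log Q * (l : ℝ) ^ s := by
          calc Real.log Q * |((aa s * (bb (s + 1) : ℤ) - aa (s + 1) * (bb s : ℤ) : ℤ) : ℝ)|
              = |lg Q Q2 (aa s) (bb s) * bb (s + 1) - lg Q Q2 (aa (s + 1)) (bb (s + 1)) * bb s| := by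
                rw [← h5, abs_mul, abs_of_pos hL1]
            _ ≤ |lg Q Q2 (aa s) (bb s)| * bb (s + 1) + |lg Q Q2 (aa (s + 1)) (bb (s + 1))| * bb s := by
                refine (abs_sub _ _).trans ?_
                rw [abs_mul, abs_mul, Nat.abs_cast, Nat.abs_cast]
            _ < c₁ * bb (s + 1) + c₁ * bb s := by
                have := hb0r s
                have := hb0r (s + 1)
                gcongr
            _ ≤ c₁ * (B₁ * (l : ℝ) ^ (s + 1)) + c₁ * (B₁ * (l : ℝ) ^ s) := by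
                gcongr
                · exact hbbB (s + 1)
                · exact hbbB s
            _ = Real.log Q * (l : ℝ) ^ s := by
                rw [hc₁]
                field_simp
                ring
        have h7 := lt_of_mul_lt_mul_left h6 hL1.le
        exact_mod_cast h7
      have := Int.eq_zero_of_abs_lt_dvd h1 h2
      linarith
    have hall : ∀ s, s₀ ≤ s → aa s * (bb s₀ : ℤ) = aa s₀ * (bb s : ℤ) := by
      intro s hs
      induction s, hs using Nat.le_induction with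
      | base => rfl
      | succ s hs ih =>
        have h1 := hstep s hs
        have h2 : (bb s : ℤ) ≠ 0 := by exact_mod_cast (hb0 s).ne'
        apply mul_right_cancel₀ h2
        linear_combination (-(bb s₀ : ℤ)) * h1 + (bb (s + 1) : ℤ) * ih
    obtain ⟨mu, hmu⟩ : ∃ mu : ℝ, mu = |lg Q Q2 (aa s₀) (bb s₀)| := ⟨_, rfl⟩
    have hmu0 : 0 < mu := by
      rw [hmu]
      exact abs_pos.2 (d.lg_ne (by exact_mod_cast hb0 s₀))
    have hbound : ∀ s, s₀ ≤ s → (bb s : ℝ) ≤ δ * bb s₀ / mu := by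
      intro s hs
      rw [le_div_iff₀ hmu0]
      have h1 : lg Q Q2 (aa s) (bb s) * bb s₀ = lg Q Q2 (aa s₀) (bb s₀) * bb s := by
        have h2 : (aa s : ℝ) * bb s₀ = aa s₀ * bb s := by exact_mod_cast hall s hs
        unfold lg
        push_cast
        linear_combination (Real.log Q) * h2
      have h2 : |lg Q Q2 (aa s) (bb s)| * bb s₀ = mu * bb s := by
        have := congrArg (fun t : ℝ => |t|) h1
        simp only [abs_mul] at this
        rw [Nat.abs_cast, Nat.abs_cast, ← hmu] at this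
        exact this
      have h3 := (haa s).2
      have h4 := hb0r s₀
      nlinarith
    obtain ⟨M₀, hM₀⟩ := exists_nat_ge (δ * bb s₀ / mu)
    have hboundN : ∀ s, s₀ ≤ s → bb s ≤ M₀ := fun s hs => by exact_mod_cast (hbound s hs).trans hM₀
    have habound : ∀ s, s₀ ≤ s → |aa s| ≤ |aa s₀| * M₀ := by
      intro s hs
      have h1 := congrArg (fun t : ℤ => |t|) (hall s hs)
      simp only [abs_mul, Nat.abs_cast] at h1
      have h2 : (1 : ℤ) ≤ bb s₀ := by exact_mod_cast hb0 s₀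
      have h3 : (bb s : ℤ) ≤ M₀ := by exact_mod_cast hboundN s hs
      have h4 := abs_nonneg (aa s)
      have h5 := abs_nonneg (aa s₀)
      nlinarith
    -- finitely many relations
    have hesc : ∀ p : ℤ × ℕ, ∃ t : ℕ, 0 < p.2 → ∀ s, t ≤ s → ¬ Lam l Q Q2 s p.1 p.2 := by
      intro p
      by_cases hp : 0 < p.2
      · obtain ⟨t, ht⟩ := d.escape (a := p.1) (b := (p.2 : ℤ)) (by exact_mod_cast hp)
        exact ⟨t, fun _ => ht⟩
      · exact ⟨0, fun h => absurd h hp⟩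
    choose t ht using hesc
    let F : Finset (ℤ × ℕ) := Finset.Icc (-(|aa s₀| * M₀)) (|aa s₀| * M₀) ×ˢ Finset.range (M₀ + 1)
    let s := max s₀ (F.sup t)
    have hs : s₀ ≤ s := le_max_left _ _
    have hmem : (aa s, bb s) ∈ F := by
      rw [Finset.mem_product, Finset.mem_Icc, Finset.mem_range]
      exact ⟨abs_le.1 (habound s hs), by have := hboundN s hs; omega⟩
    exact ht (aa s, bb s) (hb0 s) s ((Finset.le_sup (f := t) hmem).trans (le_max_right _ _)) (haa s).1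

end Pool.Agent.Helper80.AO
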