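import Pool.Agent.Helper80.AO.Dir

/-!
# The lattice of the relations `Q ^ a * Q2 ^ b = 1` modulo `ℓ ^ (s + 1)` (helper80)
-/

set_option autoImplicit false

namespace Pool.Agent.Helper80.AO

/-- `Q ^ a * Q2 ^ b` is congruent to one modulo `ℓ ^ (s + 1)` -/
def Lam (l : ℕ) [Fact l.Prime] (Q Q2 : ℕ) (s : ℕ) (a b : ℤ) : Prop :=
  ‖(Q : ℚ_[l]) ^ a * (Q2 : ℚ_[l]) ^ b - 1‖ ≤ (l : ℝ) ^ (-((s + 1 : ℕ) : ℤ))

theorem lt_one {l : ℕ} (hl : l.Prime) (s : ℕ) : (l : ℝ) ^ (-((s + 1 : ℕ) : ℤ)) < 1 := by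
  rw [zpow_neg, zpow_natCast]
  exact inv_lt_one_of_one_lt₀ (one_lt_pow₀ (by exact_mod_cast hl.one_lt) (by omega))

/-- the standing assumptions -/
structure Dat (l M Q Q2 : ℕ) : Prop where
  prime : l.Prime
  ne_two : l ≠ 2
  ndvd : ¬ l ∣ M
  hQ : Q = 1 + l * M
  hQ2 : Q2 = 1 + l * (M * Q)

variable {l M Q Q2 : ℕ} [Fact l.Prime]

section

variable (d : Dat l M Q Q2)
include d

theorem Dat.M_pos : 0 < M := Nat.pos_of_ne_zero (by rintro rfl; exact d.ndvd (dvd_zero _))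

theorem Dat.one_lt : 1 < Q := by
  rw [d.hQ]; have := Nat.mul_pos d.prime.pos d.M_pos; omega

theorem Dat.one_lt2 : 1 < Q2 := by
  rw [d.hQ2]; have := Nat.mul_pos d.prime.pos (Nat.mul_pos d.M_pos (by have := d.one_lt; omega : 0 < Q)); omega

theorem Dat.coprime : Q.Coprime Q2 := by
  rw [d.hQ2, show 1 + l * (M * Q) = 1 + (l * M) * Q by ring]
  simp

theorem Dat.norm_Q : ‖(Q : ℚ_[l])‖ = 1 := by
  apply norm_eq_one_of_near norm_one
  have := (Padic.norm_intCast_lt_one_iff (p := l) (k := ((l * M : ℕ) : ℤ))).2 ⟨M, by push_cast; ring⟩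
  rw [d.hQ]
  push_cast at this ⊢
  rwa [add_sub_cancel_left]

theorem Dat.norm_Q2 : ‖(Q2 : ℚ_[l])‖ = 1 := by
  apply norm_eq_one_of_near norm_one
  have := (Padic.norm_intCast_lt_one_iff (p := l) (k := ((l * (M * Q) : ℕ) : ℤ))).2
    ⟨M * Q, by push_cast; ring⟩
  rw [d.hQ2]
  push_cast at this ⊢
  rwa [add_sub_cancel_left]

theorem Dat.Q_ne : (Q : ℚ_[l]) ≠ 0 := by
  intro h
  have := d.norm_Q
  rw [h, norm_zero] at this
  exact zero_ne_one this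

theorem Dat.Q2_ne : (Q2 : ℚ_[l]) ≠ 0 := by
  intro h
  have := d.norm_Q2
  rw [h, norm_zero] at this
  exact zero_ne_one this

theorem Dat.add {s : ℕ} {a b a' b' : ℤ} (h : Lam l Q Q2 s a b) (h' : Lam l Q Q2 s a' b') :
    Lam l Q Q2 s (a + a') (b + b') := by
  have := near_one_mul (lt_one d.prime s) h h'
  unfold Lam
  rw [zpow_add₀ d.Q_ne, zpow_add₀ d.Q2_ne]
  convert this using 3
  ring

theorem Dat.zmul {s : ℕ} {a b : ℤ} (h : Lam l Q Q2 s a b) (k : ℤ) : Lam l Q Q2 s (k * a) (k * b) := by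
  have := near_one_zpow (lt_one d.prime s) h k
  unfold Lam
  rw [mul_comm k a, mul_comm k b, zpow_mul, zpow_mul, ← mul_zpow]
  exact this

omit d in
theorem Lam.mono (hl : l.Prime) {s s' : ℕ} (hs : s ≤ s') {a b : ℤ} (h : Lam l Q Q2 s' a b) : Lam l Q Q2 s a b := by
  unfold Lam at h ⊢
  refine h.trans ?_
  apply zpow_le_zpow_right₀ (by exact_mod_cast hl.one_lt.le)
  push_cast
  linarith [show (s : ℤ) ≤ s' by exact_mod_cast hs]

theorem Dat.pow_mem (s : ℕ) (a : ℤ) : Lam l Q Q2 s ((l : ℤ) ^ s * a) 0 := by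
  unfold Lam
  rw [zpow_zero, mul_one, d.hQ]
  exact near_pow d.ne_two d.ndvd s a

theorem Dat.gen (s : ℕ) : ∃ c : ℤ, Lam l Q Q2 s c 1 := by
  have hlQ2 : ¬ (l : ℤ) ∣ (Q2 : ℤ) := by
    intro h
    have := (Padic.norm_intCast_lt_one_iff (p := l) (k := (Q2 : ℤ))).2 h
    have h2 := d.norm_Q2
    push_cast at this
    linarith
  obtain ⟨a, -, ha⟩ := exists_pow_lt d.prime d.ne_two (M := (M : ℤ)) (by exact_mod_cast d.ndvd) (u := 1) hlQ2
    (by rw [d.hQ2]; push_cast; exact ⟨M * Q, by ring⟩) s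
  refine ⟨a, ?_⟩
  have h1 := norm_pow_le (l := l) (s + 1) ha
  unfold Lam
  rw [zpow_natCast, zpow_one]
  have e : (((Q2 * (1 + l * (M : ℤ)) ^ a - 1 : ℤ) : ℚ) : ℚ_[l]) = (Q : ℚ_[l]) ^ a * (Q2 : ℚ_[l]) - 1 := by
    rw [d.hQ]
    push_cast
    ring
  rw [e] at h1
  exact h1

theorem Dat.dvd_nat {s : ℕ} {k : ℕ} (h : Lam l Q Q2 s k 0) : (l : ℤ) ^ s ∣ (k : ℤ) := by
  unfold Lam at h
  rw [zpow_zero, mul_one, zpow_natCast] at h
  have h1 : (l : ℤ) ^ (s + 1) ∣ (1 + (l : ℤ) * M) ^ k - 1 := by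
    have h2 := (Padic.norm_int_le_pow_iff_dvd (p := l) ((1 + (l : ℤ) * M) ^ k - 1) (s + 1)).1 (by
      push_cast
      rw [d.hQ] at h
      push_cast at h
      exact h)
    exact_mod_cast h2
  have hlp : Prime (l : ℤ) := Nat.prime_iff_prime_int.mp d.prime
  have hM' : ¬ (l : ℤ) ∣ (M : ℤ) := by exact_mod_cast d.ndvd
  have h0 : (1 + (l : ℤ) * M) - 1 = l * M := by ring
  have hl1 : ¬ (l : ℤ) ∣ (1 + l * M) := by
    intro h
    have : (l : ℤ) ∣ 1 := by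
      have h2 : (l : ℤ) ∣ l * M := Dvd.intro _ rfl
      have := dvd_sub h h2
      simpa using this
    exact hlp.not_isUnit (isUnit_of_dvd_one this)
  have he := Int.emultiplicity_pow_sub_pow d.prime (d.prime.odd_of_ne_two d.ne_two) (x := 1 + l * (M : ℤ)) (y := 1)
    (by rw [h0]; exact Dvd.intro _ rfl) hl1 k
  have e1 : emultiplicity (l : ℤ) ((1 + l * (M : ℤ)) - 1) = (1 : ℕ) := by
    rw [h0, emultiplicity_mul hlp, emultiplicity_eq_zero.mpr hM']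
    have : emultiplicity (l : ℤ) (l : ℤ) = (1 : ℕ) := by
      have := emultiplicity_pow_self_of_prime hlp 1
      rwa [pow_one] at this
    rw [this, add_zero]
  rw [e1, one_pow] at he
  have h3 := le_emultiplicity_of_pow_dvd h1
  rw [he] at h3
  have h4 : (s : ℕ∞) ≤ emultiplicity l k := by
    have h5 : ((s + 1 : ℕ) : ℕ∞) = (s : ℕ∞) + 1 := by push_cast; rfl
    rw [h5, add_comm ((1 : ℕ) : ℕ∞)] at h3
    have h6 : (((1 : ℕ) : ℕ∞)) = 1 := rfl
    rw [h6] at h3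
    exact (ENat.add_le_add_iff_right ENat.one_ne_top).1 h3
  have h7 := pow_dvd_of_le_emultiplicity h4
  exact_mod_cast h7

theorem Dat.dvd_zero' {s : ℕ} {k : ℤ} (h : Lam l Q Q2 s k 0) : (l : ℤ) ^ s ∣ k := by
  rcases Int.eq_nat_or_neg k with ⟨n, rfl | rfl⟩
  · exact d.dvd_nat h
  · have h1 := d.zmul h (-1)
    rw [mul_zero, neg_one_mul, neg_neg] at h1
    exact (dvd_neg).2 (d.dvd_nat h1)

theorem Dat.det {s : ℕ} {a b a' b' : ℤ} (h : Lam l Q Q2 s a b) (h' : Lam l Q Q2 s a' b') :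
    (l : ℤ) ^ s ∣ a * b' - a' * b := by
  obtain ⟨c, hc⟩ := d.gen s
  have key : ∀ {a b : ℤ}, Lam l Q Q2 s a b → (l : ℤ) ^ s ∣ a - b * c := by
    intro a b h
    have h1 := d.add h (d.zmul hc (-b))
    apply d.dvd_zero'
    convert h1 using 1 <;> ring
  have e : a * b' - a' * b = (a - b * c) * b' - (a' - b' * c) * b := by ring
  rw [e]
  exact dvd_sub ((key h).mul_right _) ((key h').mul_right _)

theorem Dat.dir {δ : ℝ} (hδ : 0 < δ) : ∃ B : ℝ, 0 < B ∧ ∀ s : ℕ, ∃ a b : ℤ, 0 < b ∧ (b : ℝ) ≤ B * (l : ℝ) ^ s ∧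
    Lam l Q Q2 s a b ∧ |a * Real.log Q + b * Real.log Q2| ≤ δ := by
  have hL1 : 0 < Real.log Q := Real.log_pos (by exact_mod_cast d.one_lt)
  refine ⟨Real.log Q / δ + 1, by positivity, fun s => ?_⟩
  obtain ⟨c, hc⟩ := d.gen s
  obtain ⟨T, hT⟩ : ∃ T : ℝ, T = (l : ℝ) ^ s := ⟨_, rfl⟩
  have hT1 : 1 ≤ T := by rw [hT]; exact one_le_pow₀ (by exact_mod_cast d.prime.one_lt.le)
  have hT0 : 0 < T := by linarith
  obtain ⟨n, hn⟩ : ∃ n : ℕ, n = ⌈T * Real.log Q / δ⌉₊ := ⟨_, rfl⟩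
  have hn1 : T * Real.log Q / δ ≤ n := by rw [hn]; exact Nat.le_ceil _
  have hn2 : (n : ℝ) < T * Real.log Q / δ + 1 := by rw [hn]; exact Nat.ceil_lt_add_one (by positivity)
  have hn0 : 0 < n := by rw [hn]; exact Nat.ceil_pos.2 (by positivity)
  obtain ⟨j, k, hk0, hkn, hjk⟩ := Real.exists_int_int_abs_mul_sub_le ((c * Real.log Q + Real.log Q2) / (T * Real.log Q)) hn0
  refine ⟨k * c - (l : ℤ) ^ s * j, k, hk0, ?_, ?_, ?_⟩
  · have h1 : (k : ℝ) ≤ n := by exact_mod_cast hkn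
    rw [← hT]
    calc (k : ℝ) ≤ T * Real.log Q / δ + 1 := by linarith
      _ ≤ T * Real.log Q / δ + T := by linarith
      _ = (Real.log Q / δ + 1) * T := by ring
  · have h1 := d.add (d.zmul hc k) (d.pow_mem (Q2 := Q2) s (-j))
    convert h1 using 1 <;> ring
  · have e : ((k * c - (l : ℤ) ^ s * j : ℤ) : ℝ) * Real.log Q + k * Real.log Q2
        = (T * Real.log Q) * (k * ((c * Real.log Q + Real.log Q2) / (T * Real.log Q)) - j) := by
      push_cast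
      rw [← hT]
      field_simp
      ring
    rw [e, abs_mul, abs_of_pos (by positivity)]
    calc T * Real.log Q * |(k : ℝ) * ((c * Real.log Q + Real.log Q2) / (T * Real.log Q)) - j|
        ≤ T * Real.log Q * (1 / (n + 1)) := by gcongr
      _ ≤ δ := by
        rw [mul_one_div, div_le_iff₀ (by positivity)]
        rw [div_le_iff₀ hδ] at hn1
        nlinarith

end

end Pool.Agent.Helper80.AO
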