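import Pool.Agent.Helper80.AO.Gain
import Pool.Agent.Helper80.AO.Vec2B

/-!
# Points outside a closed subset, and the main construction (helper80)
-/

set_option autoImplicit false

namespace Pool.Agent.Helper80.AO

open MvPolynomial

theorem pert {m : ℕ} (hm : 1 ≤ m) (F : MvPolynomial (Fin (m + 1)) ℂ)
    (hF : ∃ w : Fin (m + 1) → ℂ, ∑ i, w i = 0 ∧ eval w F ≠ 0) (x : Fin m → ℝ) (ε : ℝ) (hε : 0 < ε) :
    ∃ (y : Fin m → ℝ) (δ : ℝ), 0 < δ ∧ (∀ i, |y i - x i| + δ < ε) ∧
      ∀ v : Fin m → ℝ, (∀ i, |v i - y i| < δ) → ∑ i, v i ≠ 0 ∧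
        eval (Fin.snoc (α := fun _ => ℂ) (fun i => (v i : ℂ)) (-∑ i, (v i : ℂ))) F ≠ 0 := by
  classical
  obtain ⟨P₁, hP₁⟩ : ∃ P₁ : MvPolynomial (Fin m) ℂ, ∀ u : Fin m → ℂ,
      eval u P₁ = eval (Fin.snoc (α := fun _ => ℂ) u (-∑ i, u i)) F := by
    refine ⟨bind₁ (Fin.snoc (α := fun _ => MvPolynomial (Fin m) ℂ) (fun i => X i) (-∑ i, X i)) F, ?_⟩
    intro u
    have h1 := eval₂Hom_bind₁ (RingHom.id ℂ) u
      (Fin.snoc (α := fun _ => MvPolynomial (Fin m) ℂ) (fun i => X i) (-∑ i, X i)) F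
    have h2 : (eval u) = (eval₂Hom (RingHom.id ℂ) u) := rfl
    rw [h2, h1]
    have h3 : (fun i => (eval₂Hom (RingHom.id ℂ) u)
        (Fin.snoc (α := fun _ => MvPolynomial (Fin m) ℂ) (fun i => X i) (-∑ i, X i) i))
        = Fin.snoc (α := fun _ => ℂ) u (-∑ i, u i) := by
      funext i
      refine Fin.lastCases ?_ (fun j => ?_) i
      · rw [Fin.snoc_last, Fin.snoc_last, map_neg, map_sum]
        simp
      · rw [Fin.snoc_castSucc, Fin.snoc_castSucc]
        simp
    rw [h3]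
    rfl
  have hP₁0 : P₁ ≠ 0 := by
    obtain ⟨w, hw, hw2⟩ := hF
    rintro rfl
    have h1 := hP₁ (fun i => w i.castSucc)
    rw [map_zero] at h1
    apply hw2
    rw [h1]
    congr 1
    have : Fin.snoc (α := fun _ => ℂ) (fun i => w i.castSucc) (-∑ i : Fin m, w i.castSucc) = w := by
      funext i
      refine Fin.lastCases ?_ (fun j => ?_) i
      · rw [Fin.snoc_last]
        rw [Fin.sum_univ_castSucc] at hw
        linear_combination -hw
      · rw [Fin.snoc_castSucc]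
    rw [this]
  have hS0 : (∑ i, X i : MvPolynomial (Fin m) ℂ) ≠ 0 := by
    intro h
    have := congrArg (eval (fun _ => (1 : ℂ))) h
    simp at this
    omega
  obtain ⟨P, hP⟩ : ∃ P : MvPolynomial (Fin m) ℂ, P = P₁ * ∑ i, X i := ⟨_, rfl⟩
  have hP0 : P ≠ 0 := by
    rw [hP]
    exact mul_ne_zero hP₁0 hS0
  have hex : ∃ y : Fin m → ℝ, (∀ i, y i ∈ Set.Ioo (x i - ε / 2) (x i + ε / 2)) ∧
      eval (fun i => (y i : ℂ)) P ≠ 0 := by
    by_contra hcon
    push Not at hcon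
    apply hP0
    apply funext_set (fun i => (fun t : ℝ => (t : ℂ)) '' Set.Ioo (x i - ε / 2) (x i + ε / 2))
    · intro i
      exact (Set.Ioo_infinite (by linarith)).image (Complex.ofReal_injective.injOn)
    · intro u hu
      rw [map_zero]
      have h1 : ∀ i, ∃ t : ℝ, t ∈ Set.Ioo (x i - ε / 2) (x i + ε / 2) ∧ (t : ℂ) = u i := fun i =>
        hu i (Set.mem_univ i)
      choose y hy1 hy2 using h1
      have h2 : u = fun i => (y i : ℂ) := by funext i; exact (hy2 i).symm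
      rw [h2]
      exact hcon y hy1
  obtain ⟨y, hy1, hy2⟩ := hex
  have hcont : Continuous fun v : Fin m → ℝ => eval (fun i => (v i : ℂ)) P :=
    (MvPolynomial.continuous_eval P).comp
      (continuous_pi fun i => Complex.continuous_ofReal.comp (continuous_apply i))
  have hopen : IsOpen {v : Fin m → ℝ | eval (fun i => (v i : ℂ)) P ≠ 0} :=
    isOpen_ne_fun hcont continuous_const
  obtain ⟨δ₀, hδ₀, hball⟩ := Metric.isOpen_iff.1 hopen y hy2
  refine ⟨y, min δ₀ (ε / 4), lt_min hδ₀ (by linarith), ?_, ?_⟩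
  · intro i
    have h1 : |y i - x i| < ε / 2 := by
      rw [abs_lt]
      constructor <;> linarith [(hy1 i).1, (hy1 i).2]
    linarith [min_le_right δ₀ (ε / 4)]
  · intro v hv
    have h1 : v ∈ Metric.ball y δ₀ := by
      rw [Metric.mem_ball, dist_pi_lt_iff hδ₀]
      intro i
      rw [Real.dist_eq]
      exact lt_of_lt_of_le (hv i) (min_le_left _ _)
    have h2 : eval (fun i => (v i : ℂ)) P ≠ 0 := hball h1
    rw [hP, map_mul, hP₁] at h2
    refine ⟨?_, left_ne_zero_of_mul h2⟩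
    intro h3
    apply right_ne_zero_of_mul h2
    rw [map_sum]
    simp only [eval_X]
    exact_mod_cast h3

theorem part1 {m : ℕ} (hm : 2 ≤ m) (S : Finset ℕ) (x : Fin (m + 1) → ℝ) (hx : ∑ i, x i = 0)
    (x' : ∀ (p : ℕ) [Fact p.Prime], Fin (m + 1) → ℚ_[p])
    (hx' : ∀ (p : ℕ) [Fact p.Prime], p ∈ S → ∑ i, x' p i = 0) (ε : ℝ) (hε : 0 < ε)
    (F : MvPolynomial (Fin (m + 1)) ℂ) (hF : ∃ w : Fin (m + 1) → ℂ, ∑ i, w i = 0 ∧ eval w F ≠ 0) :
    ∃ N : ℕ, N ≠ 0 ∧ ∀ κ : ℝ, 0 ≤ κ → κ < 1 / 2 → ∀ B : ℝ, ∃ (z : Fin (m + 1) → ℤ) (t : ℚ),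
      (Finset.univ.gcd fun i => (z i).natAbs) = 1 ∧ (∀ i, z i ≠ 0) ∧ ∑ i, z i = 0 ∧
      eval (fun i => ((t * z i : ℚ) : ℂ)) F ≠ 0 ∧
      (∀ i, |((t * z i : ℚ) : ℝ) - x i| < ε) ∧
      (∀ (p : ℕ) [Fact p.Prime], p ∈ S → ∀ i, ‖((t * z i : ℚ) : ℚ_[p]) - x' p i‖ < ε) ∧
      (∀ i : Fin m, ∀ p : ℕ, p.Prime → (p : ℤ) ∣ z i.castSucc → p ∣ N) ∧
      radical z + κ * Real.log (height z) + B ≤ height z := by
  have hm1 : (0 : ℝ) < m + 1 := by positivity
  obtain ⟨y, δ, hδ, hy, hv⟩ := pert (by omega) F hF (fun i => x i.castSucc) (ε / (m + 1)) (by positivity)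
  obtain ⟨l, N, hl, C₀, hN, hvec⟩ := vecB hm S y (fun p _ i => x' p i.castSucc) (min δ ε) (lt_min hδ hε)
  refine ⟨N, hN, fun κ hκ0 hκ B => ?_⟩
  have hlog : 0 < Real.log l := Real.log_pos (by exact_mod_cast hl.out.one_lt)
  obtain ⟨W, hW⟩ : ∃ W : ℝ, W = ∑ i : Fin m, (|x i.castSucc| + ε) + 1 := ⟨_, rfl⟩
  have hW1 : 1 ≤ W := by
    rw [hW]
    have : 0 ≤ ∑ i : Fin m, (|x i.castSucc| + ε) := Finset.sum_nonneg fun i _ => by positivity
    linarith
  obtain ⟨C, hC, hC1⟩ : ∃ C : ℝ, Real.log W + |C₀| + 1 = C ∧ 1 ≤ C := by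
    refine ⟨_, rfl, ?_⟩
    have := Real.log_nonneg hW1
    have := abs_nonneg C₀
    linarith
  have hκ2 : 0 < 1 - 2 * κ := by linarith
  obtain ⟨s₀, hs₀⟩ := exists_nat_ge ((κ * Real.log C + B + Real.log N) / ((1 - 2 * κ) * Real.log l))
  rw [div_le_iff₀ (by positivity)] at hs₀
  obtain ⟨s, hs₀s, w, hw0, hwden, hwr, hwp, hwN, hwl, hwsum⟩ := hvec s₀
  have hs : κ * Real.log C + B + Real.log N ≤ s * ((1 - 2 * κ) * Real.log l) := by
    refine hs₀.trans ?_
    apply mul_le_mul_of_nonneg_right _ (by positivity)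
    exact_mod_cast hs₀s
  have hvw := hv (fun i => (w i : ℝ)) fun i => lt_of_lt_of_le (hwr i) (min_le_left _ _)
  have hsum0 : ∑ i, w i ≠ 0 := by
    intro h
    apply hvw.1
    have := congrArg (fun t : ℚ => (t : ℝ)) h
    simpa using this
  obtain ⟨z, t, hg, hz0, hzs, hc, hlast, hpr, hht, hfin⟩ := gain (by omega) hN hw0 hwN hwl hwsum hsum0
  have hclose : ∀ i : Fin m, |(w i : ℝ) - x i.castSucc| < ε / (m + 1) := by
    intro i
    have h1 := hwr i
    have h2 := hy i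
    have h3 := min_le_left δ ε
    calc |(w i : ℝ) - x i.castSucc| ≤ |(w i : ℝ) - y i| + |y i - x i.castSucc| := abs_sub_le _ _ _
      _ < ε / (m + 1) := by linarith
  have hwW : ∀ i, |(w i : ℝ)| ≤ |x i.castSucc| + ε := by
    intro i
    have h1 : ε / (m + 1) ≤ ε := div_le_self hε.le (by linarith [show (0 : ℝ) ≤ m by positivity])
    calc |(w i : ℝ)| = |x i.castSucc + ((w i : ℝ) - x i.castSucc)| := by congr 1; ring
      _ ≤ |x i.castSucc| + |(w i : ℝ) - x i.castSucc| := abs_add_le _ _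
      _ ≤ _ := by linarith [hclose i]
  have hTs : (1 : ℝ) ≤ (l : ℝ) ^ s := one_le_pow₀ (by exact_mod_cast hl.out.one_lt.le)
  have hupper : height z ≤ C * ((l : ℝ) ^ s) ^ 2 := by
    have h1 := hht W (by linarith) (fun i => by
      refine (hwW i).trans ?_
      rw [hW]
      have := Finset.single_le_sum (f := fun i : Fin m => |x i.castSucc| + ε) (fun j _ => by positivity)
        (Finset.mem_univ i)
      linarith) (by
      push_cast
      refine (Finset.abs_sum_le_sum_abs _ _).trans ?_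
      rw [hW]
      have := Finset.sum_le_sum fun i (_ : i ∈ Finset.univ) => hwW i
      linarith)
    have h2 : (1 : ℝ) ≤ ((l : ℝ) ^ s) ^ 2 := one_le_pow₀ hTs
    have h3 := Real.log_nonneg hW1
    have h4 : C₀ * ((l : ℝ) ^ s) ^ 2 ≤ |C₀| * ((l : ℝ) ^ s) ^ 2 :=
      mul_le_mul_of_nonneg_right (le_abs_self _) (by positivity)
    rw [← hC]
    nlinarith
  have hlogh : Real.log (height z) ≤ Real.log C + 2 * (s * Real.log l) := by
    have h0 : 0 ≤ height z := by
      unfold height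
      rw [hg, Nat.cast_one, Real.log_one, sub_zero]
      exact Real.log_natCast_nonneg _
    have hl0 : (0 : ℝ) < l := by exact_mod_cast hl.out.pos
    have e : Real.log (C * ((l : ℝ) ^ s) ^ 2) = Real.log C + 2 * (s * Real.log l) := by
      rw [Real.log_mul (by linarith) (by positivity), Real.log_pow, Real.log_pow]
      push_cast
      ring
    rcases h0.eq_or_lt with h1 | h1
    · rw [← h1, Real.log_zero]
      have := Real.log_nonneg hC1
      positivity
    · rw [← e]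
      exact Real.log_le_log h1 hupper
  refine ⟨z, t, hg, hz0, hzs, ?_, ?_, ?_, hpr, ?_⟩
  · have e : (fun i => ((t * z i : ℚ) : ℂ))
        = Fin.snoc (α := fun _ => ℂ) (fun i => (((w i : ℚ) : ℝ) : ℂ)) (-∑ i, (((w i : ℚ) : ℝ) : ℂ)) := by
      funext i
      refine Fin.lastCases ?_ (fun j => ?_) i
      · rw [Fin.snoc_last, hlast]
        push_cast
        rfl
      · rw [Fin.snoc_castSucc, hc]
        push_cast
        rfl
    rw [e]
    exact hvw.2
  · intro i
    refine Fin.lastCases ?_ (fun j => ?_) i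
    · rw [hlast]
      have hx2 : x (Fin.last m) = - ∑ i : Fin m, x i.castSucc := by
        rw [Fin.sum_univ_castSucc] at hx
        linarith
      rw [hx2]
      push_cast
      have e : -∑ i, (w i : ℝ) - -∑ i : Fin m, x i.castSucc = - ∑ i, ((w i : ℝ) - x i.castSucc) := by
        rw [Finset.sum_sub_distrib]
        ring
      rw [e, abs_neg]
      calc |∑ i, ((w i : ℝ) - x i.castSucc)| ≤ ∑ i, |(w i : ℝ) - x i.castSucc| := Finset.abs_sum_le_sum_abs _ _
        _ ≤ ∑ _i : Fin m, ε / (m + 1) := Finset.sum_le_sum fun i _ => (hclose i).le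
        _ = m * (ε / (m + 1)) := by simp
        _ < ε := by
          rw [mul_div_assoc', div_lt_iff₀ hm1]
          nlinarith
    · rw [hc]
      refine (hclose j).trans_le ?_
      rw [div_le_iff₀ hm1]
      nlinarith [show (0 : ℝ) ≤ m by positivity]
  · intro p hp hpS i
    refine Fin.lastCases ?_ (fun j => ?_) i
    · rw [hlast]
      have hx2 : x' p (Fin.last m) = - ∑ i : Fin m, x' p i.castSucc := by
        have := hx' p hpS
        rw [Fin.sum_univ_castSucc] at this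
        linear_combination this
      rw [hx2]
      push_cast
      have e : -∑ i, (w i : ℚ_[p]) - -∑ i : Fin m, x' p i.castSucc
          = - ∑ i, ((w i : ℚ_[p]) - x' p i.castSucc) := by
        rw [Finset.sum_sub_distrib]
        ring
      rw [e, norm_neg]
      obtain ⟨η, hη0, hη1, hη2⟩ : ∃ η : ℝ, 0 ≤ η ∧ η < ε ∧
          ∀ i ∈ (Finset.univ : Finset (Fin m)), ‖(w i : ℚ_[p]) - x' p i.castSucc‖ ≤ η := by
        have hne : (Finset.univ : Finset (Fin m)).Nonempty := ⟨⟨0, by omega⟩, Finset.mem_univ _⟩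
        obtain ⟨j, -, hj⟩ := Finset.exists_max_image Finset.univ
          (fun i => ‖(w i : ℚ_[p]) - x' p i.castSucc‖) hne
        exact ⟨_, norm_nonneg _, lt_of_lt_of_le (hwp p hpS j) (min_le_right _ _), hj⟩
      exact lt_of_le_of_lt (norm_sum_le' _ _ hη0 hη2) hη1
    · rw [hc]
      exact lt_of_lt_of_le (hwp p hpS j) (min_le_right _ _)
  · have h1 : κ * Real.log (height z) ≤ κ * (Real.log C + 2 * (s * Real.log l)) :=
      mul_le_mul_of_nonneg_left hlogh hκ0
    have h2 : s * ((1 - 2 * κ) * Real.log l) = s * Real.log l - κ * (2 * (s * Real.log l)) := by ring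
    linarith

end Pool.Agent.Helper80.AO
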