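import Pool.Agent.Helper80.AO.Pert
import Pool.Agent.Helper80.AO.VecC

/-!
# The main construction with the full logarithmic gain (helper80)
-/

set_option autoImplicit false

namespace Pool.Agent.Helper80.AO

open MvPolynomial

theorem radical_nonneg {n : ℕ} (z : Fin n → ℤ) : 0 ≤ radical z :=
  Finset.sum_nonneg fun p _ => Real.log_natCast_nonneg p

theorem part1C {m : ℕ} (hm : 2 ≤ m) (S : Finset ℕ) (x : Fin (m + 1) → ℝ) (hx : ∑ i, x i = 0)
    (x' : ∀ (p : ℕ) [Fact p.Prime], Fin (m + 1) → ℚ_[p])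
    (hx' : ∀ (p : ℕ) [Fact p.Prime], p ∈ S → ∑ i, x' p i = 0) (ε : ℝ) (hε : 0 < ε)
    (F : MvPolynomial (Fin (m + 1)) ℂ) (hF : ∃ w : Fin (m + 1) → ℂ, ∑ i, w i = 0 ∧ eval w F ≠ 0) :
    ∃ (N : ℕ) (C : ℝ), N ≠ 0 ∧ ∀ H : ℝ, ∃ (z : Fin (m + 1) → ℤ) (t : ℚ),
      (Finset.univ.gcd fun i => (z i).natAbs) = 1 ∧ (∀ i, z i ≠ 0) ∧ ∑ i, z i = 0 ∧ t ≠ 0 ∧
      eval (fun i => ((t * z i : ℚ) : ℂ)) F ≠ 0 ∧
      (∀ i, |((t * z i : ℚ) : ℝ) - x i| < ε) ∧
      (∀ (p : ℕ) [Fact p.Prime], p ∈ S → ∀ i, ‖((t * z i : ℚ) : ℚ_[p]) - x' p i‖ < ε) ∧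
      (∀ i : Fin m, ∀ p : ℕ, p.Prime → (p : ℤ) ∣ z i.castSucc → p ∣ N) ∧
      H ≤ height z ∧ radical z + Real.log (height z) ≤ height z + C := by
  have hm1 : (0 : ℝ) < m + 1 := by positivity
  obtain ⟨y, δ, hδ, hy, hv⟩ := pert (by omega) F hF (fun i => x i.castSucc) (ε / (m + 1)) (by positivity)
  obtain ⟨l, N, hl, C₀, hN, hvec⟩ := vecC hm S y (fun p _ i => x' p i.castSucc) (min δ ε) (lt_min hδ hε)
  have hlog : 0 < Real.log l := Real.log_pos (by exact_mod_cast hl.out.one_lt)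
  obtain ⟨W, hW⟩ : ∃ W : ℝ, W = ∑ i : Fin m, (|x i.castSucc| + ε) + 1 := ⟨_, rfl⟩
  have hW1 : 1 ≤ W := by
    rw [hW]
    have : 0 ≤ ∑ i : Fin m, (|x i.castSucc| + ε) := Finset.sum_nonneg fun i _ => by positivity
    linarith
  obtain ⟨C, hC, hC1⟩ : ∃ C : ℝ, Real.log W + |C₀| + 1 = C ∧ 1 ≤ C := by
    refine ⟨_, rfl, ?_⟩
    have := Real.log_nonneg hW1
    have := abs_nonneg C₀
    linarith
  refine ⟨N, Real.log N + Real.log C, hN, fun H => ?_⟩
  obtain ⟨s₀, hs₀⟩ := exists_nat_ge ((H + Real.log N) / Real.log l)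
  rw [div_le_iff₀ hlog] at hs₀
  obtain ⟨s, hs₀s, w, hw0, hwden, hwr, hwp, hwN, hwl, hwsum⟩ := hvec s₀
  have hs : H + Real.log N ≤ s * Real.log l := by
    refine hs₀.trans ?_
    apply mul_le_mul_of_nonneg_right _ hlog.le
    exact_mod_cast hs₀s
  have hvw := hv (fun i => (w i : ℝ)) fun i => lt_of_lt_of_le (hwr i) (min_le_left _ _)
  have hsum0 : ∑ i, w i ≠ 0 := by
    intro h
    apply hvw.1
    have := congrArg (fun t : ℚ => (t : ℝ)) h
    simpa using this
  obtain ⟨z, t, hg, hz0, hzs, hc, hlast, hpr, hht, hfin⟩ := gain (by omega) hN hw0 hwN hwl hwsum hsum0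
  have hclose : ∀ i : Fin m, |(w i : ℝ) - x i.castSucc| < ε / (m + 1) := by
    intro i
    have h1 := hwr i
    have h2 := hy i
    have h3 := min_le_left δ ε
    calc |(w i : ℝ) - x i.castSucc| ≤ |(w i : ℝ) - y i| + |y i - x i.castSucc| := abs_sub_le _ _ _
      _ < ε / (m + 1) := by linarith
  have hwW : ∀ i, |(w i : ℝ)| ≤ |x i.castSucc| + ε := by
    intro i
    have h1 : ε / (m + 1) ≤ ε := div_le_self hε.le (by linarith [show (0 : ℝ) ≤ m by positivity])
    calc |(w i : ℝ)| = |x i.castSucc + ((w i : ℝ) - x i.castSucc)| := by congr 1; ring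
      _ ≤ |x i.castSucc| + |(w i : ℝ) - x i.castSucc| := abs_add_le _ _
      _ ≤ _ := by linarith [hclose i]
  have hTs : (1 : ℝ) ≤ (l : ℝ) ^ s := one_le_pow₀ (by exact_mod_cast hl.out.one_lt.le)
  have hupper : height z ≤ C * (l : ℝ) ^ s := by
    have h1 := hht W (by linarith) (fun i => by
      refine (hwW i).trans ?_
      rw [hW]
      have := Finset.single_le_sum (f := fun i : Fin m => |x i.castSucc| + ε) (fun j _ => by positivity)
        (Finset.mem_univ i)
      linarith) (by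
      push_cast
      refine (Finset.abs_sum_le_sum_abs _ _).trans ?_
      rw [hW]
      have := Finset.sum_le_sum fun i (_ : i ∈ Finset.univ) => hwW i
      linarith)
    have h3 := Real.log_nonneg hW1
    have h4 : C₀ * (l : ℝ) ^ s ≤ |C₀| * (l : ℝ) ^ s :=
      mul_le_mul_of_nonneg_right (le_abs_self _) (by positivity)
    rw [← hC]
    nlinarith
  have hlogh : Real.log (height z) ≤ Real.log C + s * Real.log l := by
    have h0 : 0 ≤ height z := by
      unfold height
      rw [hg, Nat.cast_one, Real.log_one, sub_zero]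
      exact Real.log_natCast_nonneg _
    have hl0 : (0 : ℝ) < l := by exact_mod_cast hl.out.pos
    have e : Real.log (C * (l : ℝ) ^ s) = Real.log C + s * Real.log l := by
      rw [Real.log_mul (by linarith) (by positivity), Real.log_pow]
    rcases h0.eq_or_lt with h1 | h1
    · rw [← h1, Real.log_zero]
      have := Real.log_nonneg hC1
      positivity
    · rw [← e]
      exact Real.log_le_log h1 hupper
  have hrad := radical_nonneg z
  have ht0 : t ≠ 0 := by
    rintro rfl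
    have h1 := hc ⟨0, by omega⟩
    rw [zero_mul] at h1
    exact hw0 _ h1.symm
  refine ⟨z, t, hg, hz0, hzs, ht0, ?_, ?_, ?_, hpr, by linarith, by linarith⟩
  · have e : (fun i => ((t * z i : ℚ) : ℂ))
        = Fin.snoc (α := fun _ => ℂ) (fun i => (((w i : ℚ) : ℝ) : ℂ)) (-∑ i, (((w i : ℚ) : ℝ) : ℂ)) := by
      funext i
      refine Fin.lastCases ?_ (fun j => ?_) i
      · rw [Fin.snoc_last, hlast]
        push_cast
        rfl
      · rw [Fin.snoc_castSucc, hc]
        push_cast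
        rfl
    rw [e]
    exact hvw.2
  · intro i
    refine Fin.lastCases ?_ (fun j => ?_) i
    · rw [hlast]
      have hx2 : x (Fin.last m) = - ∑ i : Fin m, x i.castSucc := by
        rw [Fin.sum_univ_castSucc] at hx
        linarith
      rw [hx2]
      push_cast
      have e : -∑ i, (w i : ℝ) - -∑ i : Fin m, x i.castSucc = - ∑ i, ((w i : ℝ) - x i.castSucc) := by
        rw [Finset.sum_sub_distrib]
        ring
      rw [e, abs_neg]
      calc |∑ i, ((w i : ℝ) - x i.castSucc)| ≤ ∑ i, |(w i : ℝ) - x i.castSucc| := Finset.abs_sum_le_sum_abs _ _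
        _ ≤ ∑ _i : Fin m, ε / (m + 1) := Finset.sum_le_sum fun i _ => (hclose i).le
        _ = m * (ε / (m + 1)) := by simp
        _ < ε := by
          rw [mul_div_assoc', div_lt_iff₀ hm1]
          nlinarith
    · rw [hc]
      refine (hclose j).trans_le ?_
      rw [div_le_iff₀ hm1]
      nlinarith [show (0 : ℝ) ≤ m by positivity]
  · intro p hp hpS i
    refine Fin.lastCases ?_ (fun j => ?_) i
    · rw [hlast]
      have hx2 : x' p (Fin.last m) = - ∑ i : Fin m, x' p i.castSucc := by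
        have := hx' p hpS
        rw [Fin.sum_univ_castSucc] at this
        linear_combination this
      rw [hx2]
      push_cast
      have e : -∑ i, (w i : ℚ_[p]) - -∑ i : Fin m, x' p i.castSucc
          = - ∑ i, ((w i : ℚ_[p]) - x' p i.castSucc) := by
        rw [Finset.sum_sub_distrib]
        ring
      rw [e, norm_neg]
      obtain ⟨η, hη0, hη1, hη2⟩ : ∃ η : ℝ, 0 ≤ η ∧ η < ε ∧
          ∀ i ∈ (Finset.univ : Finset (Fin m)), ‖(w i : ℚ_[p]) - x' p i.castSucc‖ ≤ η := by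
        have hne : (Finset.univ : Finset (Fin m)).Nonempty := ⟨⟨0, by omega⟩, Finset.mem_univ _⟩
        obtain ⟨j, -, hj⟩ := Finset.exists_max_image Finset.univ
          (fun i => ‖(w i : ℚ_[p]) - x' p i.castSucc‖) hne
        exact ⟨_, norm_nonneg _, lt_of_lt_of_le (hwp p hpS j) (min_le_right _ _), hj⟩
      exact lt_of_le_of_lt (norm_sum_le' _ _ hη0 hη2) hη1
    · rw [hc]
      exact lt_of_lt_of_le (hwp p hpS j) (min_le_right _ _)

end Pool.Agent.Helper80.AO
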