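import Pool.Agent.Helper80.VO.Core
import Pool.Agent.Helper80.NE.WA

/-!
# Numbers composed of two fixed integers: near one in the real and in finitely many `p`-adic topologies, and
congruent to a given number modulo a high power of another prime (helper80)
-/

set_option autoImplicit false

namespace Pool.Agent.Helper80.AO

/-- coprime integers larger than one have logarithms of irrational ratio -/
theorem indep_log {P Q : ℕ} (hP : 1 < P) (hQ : 1 < Q) (hc : P.Coprime Q) (m n : ℤ)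
    (h : m * Real.log P = n * Real.log Q) : m = 0 ∧ n = 0 := by
  have h3 : 0 < Real.log P := Real.log_pos (by exact_mod_cast hP)
  have h7 : 0 < Real.log Q := Real.log_pos (by exact_mod_cast hQ)
  have h1 : (m.natAbs : ℝ) * Real.log P = n.natAbs * Real.log Q := by
    have h2 := congrArg (fun t : ℝ => |t|) h
    simp only [abs_mul, abs_of_pos h3, abs_of_pos h7] at h2
    rw [Nat.cast_natAbs, Nat.cast_natAbs, Int.cast_abs, Int.cast_abs]
    exact h2
  rw [← Real.log_pow, ← Real.log_pow] at h1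
  have hP0 : (0 : ℝ) < P := by positivity
  have hQ0 : (0 : ℝ) < Q := by positivity
  have h2 : (P : ℝ) ^ m.natAbs = (Q : ℝ) ^ n.natAbs := Real.log_injOn_pos
    (Set.mem_Ioi.2 (by positivity)) (Set.mem_Ioi.2 (by positivity)) h1
  have h4 : P ^ m.natAbs = Q ^ n.natAbs := by exact_mod_cast h2
  have h5 : m.natAbs = 0 := by
    by_contra h6
    have h8 : (P ^ m.natAbs).Coprime (Q ^ n.natAbs) := Nat.Coprime.pow _ _ hc
    rw [← h4, Nat.coprime_self] at h8
    have h9 : 1 < P ^ m.natAbs := Nat.one_lt_pow h6 hP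
    omega
  have h6 : m = 0 := Int.natAbs_eq_zero.1 h5
  refine ⟨h6, ?_⟩
  rw [h6, Int.cast_zero, zero_mul] at h
  rcases mul_eq_zero.1 h.symm with h8 | h8
  · exact_mod_cast h8
  · exact absurd h8 h7.ne'

/-- the elements near one form a group -/
theorem near_one_zpow {p : ℕ} [Fact p.Prime] {u : ℚ_[p]} {η : ℝ} (hη : η < 1) (h : ‖u - 1‖ ≤ η) (n : ℤ) :
    ‖u ^ n - 1‖ ≤ η := by
  have hη0 : 0 ≤ η := (norm_nonneg _).trans h
  have hu : ‖u‖ = 1 := by
    have h1 : ‖u - 1‖ < ‖(1 : ℚ_[p])‖ := by rw [norm_one]; exact lt_of_le_of_lt h hη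
    have h2 : ‖(u - 1) + 1‖ = max ‖u - 1‖ ‖(1 : ℚ_[p])‖ := Padic.add_eq_max_of_ne (ne_of_lt h1)
    rw [sub_add_cancel] at h2
    rw [h2, max_eq_right h1.le, norm_one]
  have hpow : ∀ k : ℕ, ‖u ^ k - 1‖ ≤ η := by
    intro k
    induction k with
    | zero => simpa using hη0
    | succ k ih =>
      have e : u ^ (k + 1) - 1 = u ^ k * (u - 1) + (u ^ k - 1) := by ring
      rw [e]
      refine (Padic.nonarchimedean _ _).trans (max_le ?_ ih)
      rw [norm_mul, norm_pow, hu, one_pow, one_mul]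
      exact h
  rcases n with k | k
  · have := hpow k
    rwa [← zpow_natCast] at this
  · rw [zpow_negSucc]
    have hu0 : u ^ (k + 1) ≠ 0 := by
      apply pow_ne_zero
      intro h0
      rw [h0, norm_zero] at hu
      exact zero_ne_one hu
    have e : (u ^ (k + 1))⁻¹ - 1 = (u ^ (k + 1))⁻¹ * (1 - u ^ (k + 1)) := by
      field_simp
    rw [e, norm_mul, norm_inv, norm_pow, hu, one_pow, inv_one, one_mul, norm_sub_rev]
    exact hpow (k + 1)

/-- `(1 + ℓ M) ^ (ℓ ^ n) = 1 + ℓ ^ (n + 1) h`, `h` prime to `ℓ` -/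
theorem pow_ell {l : ℕ} (hl : l.Prime) (hl2 : l ≠ 2) {M : ℤ} (hM : ¬ (l : ℤ) ∣ M) (n : ℕ) :
    ∃ h : ℤ, ¬ (l : ℤ) ∣ h ∧ (1 + l * M) ^ (l ^ n) = 1 + (l : ℤ) ^ (n + 1) * h := by
  have hodd : Odd l := hl.odd_of_ne_two hl2
  have hl1 : ¬ (l : ℤ) ∣ (1 + l * M) := by
    intro h
    have : (l : ℤ) ∣ 1 := by
      have h2 : (l : ℤ) ∣ l * M := Dvd.intro _ rfl
      have := dvd_sub h h2
      simpa using this
    have := Int.natAbs_dvd_natAbs.mpr this
    simp at this
    exact hl.one_lt.ne' this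
  have h0 : (1 + (l : ℤ) * M) - 1 = l * M := by ring
  have he := Int.emultiplicity_pow_sub_pow hl hodd (x := 1 + l * M) (y := 1)
    (by rw [h0]; exact Dvd.intro _ rfl) hl1 (l ^ n)
  have hlp : Prime (l : ℤ) := Nat.prime_iff_prime_int.mp hl
  have e1 : emultiplicity (l : ℤ) ((1 + l * M) - 1) = (1 : ℕ) := by
    rw [h0, emultiplicity_mul hlp, emultiplicity_eq_zero.mpr hM]
    have : emultiplicity (l : ℤ) (l : ℤ) = (1 : ℕ) := by
      have := emultiplicity_pow_self_of_prime hlp 1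
      rwa [pow_one] at this
    rw [this, add_zero]
  have e2 : emultiplicity l (l ^ n) = (n : ℕ) := by
    have := emultiplicity_pow_self_of_prime hl.prime n
    simpa using this
  rw [e1, e2, one_pow] at he
  have he' : emultiplicity (l : ℤ) ((1 + (l : ℤ) * M) ^ l ^ n - 1) = ((n + 1 : ℕ) : ℕ∞) := by
    rw [he]
    push_cast
    ring
  obtain ⟨h1, h2⟩ := emultiplicity_eq_coe.1 he'
  obtain ⟨h, hh⟩ := h1
  refine ⟨h, ?_, by linarith⟩
  rintro ⟨y, rfl⟩
  apply h2
  rw [hh]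
  exact ⟨y, by ring⟩

/-- every class congruent to one modulo `ℓ` is a power of `1 + ℓ M` modulo `ℓ ^ (n + 1)` -/
theorem exists_pow {l : ℕ} (hl : l.Prime) (hl2 : l ≠ 2) {M : ℤ} (hM : ¬ (l : ℤ) ∣ M) {u v : ℤ}
    (hv : ¬ (l : ℤ) ∣ v) (huv : (l : ℤ) ∣ v - u) (n : ℕ) :
    ∃ a : ℕ, (l : ℤ) ^ (n + 1) ∣ v * (1 + l * M) ^ a - u := by
  have hlp : Prime (l : ℤ) := Nat.prime_iff_prime_int.mp hl
  induction n with
  | zero => exact ⟨0, by simpa using huv⟩
  | succ n ih =>
    obtain ⟨a, y, hy⟩ := ih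
    obtain ⟨h, hh, he⟩ := pow_ell hl hl2 hM n
    -- `v Q ^ a * k * h + y` is divisible by `ℓ`
    have hQ : ¬ (l : ℤ) ∣ (1 + l * M) ^ a := by
      intro hd
      have h1 := hlp.dvd_of_dvd_pow hd
      have : (l : ℤ) ∣ 1 := by
        have h2 : (l : ℤ) ∣ l * M := Dvd.intro _ rfl
        have := dvd_sub h1 h2
        simpa using this
      exact hlp.not_isUnit (isUnit_of_dvd_one this)
    have hc : IsCoprime (v * (1 + l * M) ^ a * h) (l : ℤ) := by
      rw [isCoprime_comm, hlp.coprime_iff_not_dvd]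
      intro hd
      rcases hlp.dvd_or_dvd hd with h1 | h1
      · rcases hlp.dvd_or_dvd h1 with h2 | h2
        · exact hv h2
        · exact hQ h2
      · exact hh h1
    obtain ⟨s, t, hst⟩ := hc
    obtain ⟨k, hk⟩ : ∃ k : ℕ, (l : ℤ) ∣ (k : ℤ) + s * y := by
      refine ⟨((-(s * y)) % l).toNat, ?_⟩
      rw [Int.toNat_of_nonneg (Int.emod_nonneg _ (by exact_mod_cast hl.ne_zero))]
      have := Int.emod_add_mul_ediv (-(s * y)) l
      exact ⟨-(-(s * y) / l), by linarith⟩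
    refine ⟨a + l ^ n * k, ?_⟩
    have hk2 : ∃ z : ℤ, (1 + (l : ℤ) ^ (n + 1) * h) ^ k = 1 + k * ((l : ℤ) ^ (n + 1) * h)
        + (l : ℤ) ^ (n + 2) * z := by
      clear hk
      induction k with
      | zero => exact ⟨0, by simp⟩
      | succ k ihk =>
        obtain ⟨z, hz⟩ := ihk
        refine ⟨z * (1 + (l : ℤ) ^ (n + 1) * h) + (l : ℤ) ^ n * h * k * h, ?_⟩
        rw [pow_succ, hz]
        push_cast
        ring
    obtain ⟨z, hz⟩ := hk2
    have e : v * (1 + l * M) ^ (a + l ^ n * k) - u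
        = (l : ℤ) ^ (n + 1) * (y + v * (1 + l * M) ^ a * (k * h))
          + (l : ℤ) ^ (n + 2) * (v * (1 + l * M) ^ a * z) := by
      rw [pow_add, pow_mul, he, hz]
      have : v * ((1 + (l : ℤ) * M) ^ a * (1 + k * ((l : ℤ) ^ (n + 1) * h) + (l : ℤ) ^ (n + 2) * z)) - u
          = (v * (1 + (l : ℤ) * M) ^ a - u) + (l : ℤ) ^ (n + 1) * (v * (1 + l * M) ^ a * (k * h))
            + (l : ℤ) ^ (n + 2) * (v * (1 + l * M) ^ a * z) := by ring
      rw [this, hy]
      ring
    rw [e]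
    apply dvd_add _ (Dvd.intro _ rfl)
    rw [pow_succ (l : ℤ) (n + 1)]
    apply mul_dvd_mul_left
    -- `y + c k h`, `c h s + t ℓ = 1`
    obtain ⟨q, hq⟩ := hk
    have e2 : y + v * (1 + l * M) ^ a * (k * h) = (l : ℤ) * (t * y + v * (1 + l * M) ^ a * h * q) := by
      have hkk : (k : ℤ) = l * q - s * y := by linarith
      rw [hkk]
      have : y = (s * (v * (1 + l * M) ^ a * h) + t * l) * y := by rw [hst, one_mul]
      calc y + v * (1 + l * M) ^ a * ((l * q - s * y) * h)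
          = (s * (v * (1 + l * M) ^ a * h) + t * l) * y + v * (1 + l * M) ^ a * ((l * q - s * y) * h) := by
            rw [← this]
        _ = _ := by ring
    rw [e2]
    exact Dvd.intro _ rfl

end Pool.Agent.Helper80.AO
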