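import Pool.Agent.Helper80.AO.Uni

/-!
# Vectors of numbers composed of fixed primes with a sum divisible by a high power (helper80)
-/

set_option autoImplicit false

namespace Pool.Agent.Helper80.AO

open Pool.Agent.Helper80.NE Pool.Agent.Helper80.VO

theorem norm_eq_one_of_near {p : ℕ} [Fact p.Prime] {x y : ℚ_[p]} (hy : ‖y‖ = 1) (h : ‖x - y‖ < 1) :
    ‖x‖ = 1 := by
  have h1 : ‖x - y‖ ≠ ‖y‖ := by rw [hy]; exact ne_of_lt h
  have h2 := Padic.add_eq_max_of_ne h1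
  rw [sub_add_cancel, hy, max_eq_right h.le] at h2
  exact h2

theorem near_one_mul {p : ℕ} [Fact p.Prime] {x y : ℚ_[p]} {η : ℝ} (hη : η < 1) (hx : ‖x - 1‖ ≤ η)
    (hy : ‖y - 1‖ ≤ η) : ‖x * y - 1‖ ≤ η := by
  have h1 : ‖x‖ = 1 := norm_eq_one_of_near norm_one (lt_of_le_of_lt hx hη)
  have e : x * y - 1 = x * (y - 1) + (x - 1) := by ring
  rw [e]
  refine (Padic.nonarchimedean _ _).trans (max_le ?_ hx)
  rw [norm_mul, h1, one_mul]
  exact hy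

theorem norm_pow_le {l : ℕ} [hl : Fact l.Prime] (s : ℕ) {n : ℤ} (h : (l : ℤ) ^ s ∣ n) :
    ‖((n : ℚ) : ℚ_[l])‖ ≤ (l : ℝ) ^ (-(s : ℤ)) := by
  have := (Padic.norm_int_le_pow_iff_dvd (p := l) n s).2 (by exact_mod_cast h)
  simpa using this

theorem near_pow {l : ℕ} [hl : Fact l.Prime] (hl2 : l ≠ 2) {M : ℕ} (hM : ¬ l ∣ M) (s : ℕ) (a : ℤ) :
    ‖(((1 + l * M : ℕ) : ℚ_[l]) ^ ((l : ℤ) ^ s * a)) - 1‖ ≤ (l : ℝ) ^ (-((s + 1 : ℕ) : ℤ)) := by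
  rw [zpow_mul]
  have hlt : (l : ℝ) ^ (-((s + 1 : ℕ) : ℤ)) < 1 := by
    rw [zpow_neg, zpow_natCast]
    exact inv_lt_one_of_one_lt₀ (one_lt_pow₀ (by exact_mod_cast hl.out.one_lt) (by omega))
  apply near_one_zpow hlt
  obtain ⟨h, -, he⟩ := pow_ell hl.out hl2 (M := (M : ℤ)) (by exact_mod_cast hM) s
  have e1 : (((1 + l * M : ℕ) : ℚ_[l]) ^ ((l : ℤ) ^ s)) - 1 = ((((l : ℤ) ^ (s + 1) * h : ℤ) : ℚ) : ℚ_[l]) := by
    have e2 : ((l : ℤ) ^ s) = ((l ^ s : ℕ) : ℤ) := by push_cast; rfl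
    rw [e2, zpow_natCast]
    have e3 := congrArg (fun t : ℤ => ((t : ℚ) : ℚ_[l])) he
    push_cast at e3 ⊢
    rw [e3]
    ring
  rw [e1]
  exact norm_pow_le (s + 1) (Dvd.intro _ rfl)

theorem coord {l : ℕ} [hl : Fact l.Prime] (hl2 : l ≠ 2) {M : ℕ} (hM : ¬ l ∣ M) {Q Q2 : ℕ}
    (hQ : Q = 1 + l * M) (hQ2 : Q2 = 1 + l * (M * Q)) {α : ℤ} (hα : ¬ (l : ℤ) ∣ α) {r : ℚ}
    (hr : ‖(r : ℚ_[l]) - α‖ < 1) {δ : ℝ} (hδ : 0 < δ) (s : ℕ) :
    ∃ a b : ℤ, |((r * ((Q : ℚ) ^ a * (Q2 : ℚ) ^ b) : ℚ) : ℝ) - r| < δ ∧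
      ‖((r * ((Q : ℚ) ^ a * (Q2 : ℚ) ^ b) : ℚ) : ℚ_[l]) - α‖ ≤ (l : ℝ) ^ (-((s + 1 : ℕ) : ℤ)) := by
  have hlt : (l : ℝ) ^ (-((s + 1 : ℕ) : ℤ)) < 1 := by
    rw [zpow_neg, zpow_natCast]
    exact inv_lt_one_of_one_lt₀ (one_lt_pow₀ (by exact_mod_cast hl.out.one_lt) (by omega))
  have hM0 : M ≠ 0 := by rintro rfl; exact hM (dvd_zero _)
  have hl0 : 0 < l := hl.out.pos
  have hMp : 0 < M := Nat.pos_of_ne_zero hM0
  have hQ1 : 1 < Q := by rw [hQ]; have := Nat.mul_pos hl0 hMp; omega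
  have hQ21 : 1 < Q2 := by
    rw [hQ2]; have := Nat.mul_pos hl0 (Nat.mul_pos hMp (by omega : 0 < Q)); omega
  have hcop : Q.Coprime Q2 := by
    rw [hQ2, show 1 + l * (M * Q) = 1 + (l * M) * Q by ring]
    simp
  have hMQ : ¬ l ∣ M * Q := by
    intro h
    rcases hl.out.dvd_mul.1 h with h1 | h1
    · exact hM h1
    · rw [hQ] at h1
      have := (Nat.dvd_add_left (Dvd.intro _ rfl : l ∣ l * M)).1 h1
      exact hl.out.one_lt.ne' (Nat.dvd_one.1 this)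
  have hαn : ‖((α : ℤ) : ℚ_[l])‖ = 1 := by
    apply le_antisymm (Padic.norm_int_le_one _)
    by_contra h
    exact hα ((Padic.norm_intCast_lt_one_iff (p := l) (k := α)).1 (lt_of_not_ge h))
  have hrn : ‖(r : ℚ_[l])‖ = 1 := norm_eq_one_of_near hαn hr
  have hr0 : r ≠ 0 := by
    rintro rfl
    simp at hrn
  have hrd : (r : ℚ_[l]) * (r.den : ℚ_[l]) = (r.num : ℚ_[l]) := by
    have := Rat.mul_den_eq_num r
    have h2 := congrArg (fun t : ℚ => (t : ℚ_[l])) this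
    push_cast at h2
    exact h2
  have hden : ‖(r.den : ℚ_[l])‖ = 1 := by
    by_contra h
    have h1 : ‖((r.den : ℤ) : ℚ_[l])‖ < 1 := by
      rcases lt_or_eq_of_le (Padic.norm_int_le_one (p := l) (r.den : ℤ)) with h2 | h2
      · exact h2
      · exact absurd (by simpa using h2) h
    have h2 := (Padic.norm_intCast_lt_one_iff (p := l)).1 h1
    have h3 : ‖((r.num : ℤ) : ℚ_[l])‖ < 1 := by
      rw [← hrd, norm_mul, hrn, one_mul]
      simpa using h1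
    have h4 := (Padic.norm_intCast_lt_one_iff (p := l)).1 h3
    have h5 := r.reduced
    have h6 : l ∣ r.num.natAbs := by
      have := Int.natAbs_dvd_natAbs.2 h4
      simpa using this
    have h7 : l ∣ r.den := by exact_mod_cast h2
    have := Nat.dvd_gcd h6 h7
    rw [Nat.Coprime] at h5
    rw [h5] at this
    exact hl.out.one_lt.ne' (Nat.dvd_one.1 this)
  have hnum : ¬ (l : ℤ) ∣ r.num := by
    intro h
    have := (Padic.norm_intCast_lt_one_iff (p := l) (k := r.num)).2 h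
    rw [← hrd, norm_mul, hrn, hden] at this
    linarith
  have hd : (l : ℤ) ∣ r.num - α * r.den := by
    rw [← Padic.norm_intCast_lt_one_iff (p := l)]
    push_cast
    rw [← hrd, ← sub_mul, norm_mul, hden, mul_one]
    exact hr
  obtain ⟨a₀, ha₀⟩ := exists_pow hl.out hl2 (M := (M : ℤ)) (by exact_mod_cast hM) hnum hd s
  have hQ0 : (Q : ℝ) ≠ 0 := by positivity
  have hQ20 : (Q2 : ℝ) ≠ 0 := by positivity
  -- real approximation
  obtain ⟨δ', hδ', hδ1, hδ2⟩ : ∃ δ' : ℝ, 0 < δ' ∧ δ' ≤ 1 ∧ |(r : ℝ)| * (2 * δ') < δ := by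
    refine ⟨min 1 (δ / (2 * |(r : ℝ)| + 1) / 2), lt_min one_pos (by positivity), min_le_left _ _, ?_⟩
    have h1 : min 1 (δ / (2 * |(r : ℝ)| + 1) / 2) ≤ δ / (2 * |(r : ℝ)| + 1) / 2 := min_le_right _ _
    have h2 : |(r : ℝ)| * (2 * min 1 (δ / (2 * |(r : ℝ)| + 1) / 2)) ≤ |(r : ℝ)| * (2 * (δ / (2 * |(r : ℝ)| + 1) / 2)) := by
      gcongr
    refine lt_of_le_of_lt h2 ?_
    have h3 : (0 : ℝ) < 2 * |(r : ℝ)| + 1 := by positivity
    rw [show |(r : ℝ)| * (2 * (δ / (2 * |(r : ℝ)| + 1) / 2)) = |(r : ℝ)| * δ / (2 * |(r : ℝ)| + 1) by ring,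
      div_lt_iff₀ h3]
    nlinarith [abs_nonneg (r : ℝ)]
  have hind : ∀ m n : ℤ, m * ((l : ℝ) ^ s * Real.log Q) = n * ((l : ℝ) ^ s * Real.log Q2) → m = 0 ∧ n = 0 := by
    intro m n h
    apply indep_log hQ1 hQ21 hcop
    have : (l : ℝ) ^ s ≠ 0 := by positivity
    apply mul_left_cancel₀ this
    linarith
  obtain ⟨a', b', hab⟩ := dense_pair hind (-(a₀ * Real.log Q)) δ' hδ'
  refine ⟨a₀ + (l : ℤ) ^ s * a', (l : ℤ) ^ s * b', ?_, ?_⟩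
  · obtain ⟨E, hE⟩ : ∃ E : ℝ, E = a' * ((l : ℝ) ^ s * Real.log Q) + b' * ((l : ℝ) ^ s * Real.log Q2)
        + a₀ * Real.log Q := ⟨_, rfl⟩
    have hEs : |E| < δ' := by
      rw [hE]
      convert hab using 2
      ring
    have hexp : ((((Q : ℚ) ^ ((a₀ : ℤ) + (l : ℤ) ^ s * a') * (Q2 : ℚ) ^ ((l : ℤ) ^ s * b') : ℚ)) : ℝ) = Real.exp E := by
      push_cast
      have hQp : (0 : ℝ) < Q := by positivity
      have hQ2p : (0 : ℝ) < Q2 := by positivity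
      rw [← Real.rpow_intCast, ← Real.rpow_intCast, Real.rpow_def_of_pos hQp, Real.rpow_def_of_pos hQ2p,
        ← Real.exp_add]
      congr 1
      rw [hE]
      push_cast
      ring
    have h1 : ((r * ((Q : ℚ) ^ ((a₀ : ℤ) + (l : ℤ) ^ s * a') * (Q2 : ℚ) ^ ((l : ℤ) ^ s * b')) : ℚ) : ℝ) - r
        = r * (Real.exp E - 1) := by
      rw [Rat.cast_mul, hexp]
      ring
    rw [h1, abs_mul]
    have h2 : |Real.exp E - 1| ≤ 2 * |E| := Real.abs_exp_sub_one_le (by linarith)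
    calc |(r : ℝ)| * |Real.exp E - 1| ≤ |(r : ℝ)| * (2 * δ') := by
          gcongr
          linarith
      _ < δ := hδ2
  · have hx : ‖((Q : ℚ_[l]) ^ ((l : ℤ) ^ s * a')) - 1‖ ≤ (l : ℝ) ^ (-((s + 1 : ℕ) : ℤ)) := by
      rw [hQ]
      exact near_pow hl2 hM s a'
    have hy : ‖((Q2 : ℚ_[l]) ^ ((l : ℤ) ^ s * b')) - 1‖ ≤ (l : ℝ) ^ (-((s + 1 : ℕ) : ℤ)) := by
      rw [hQ2]
      exact near_pow hl2 hMQ s b'
    have hxy := near_one_mul hlt hx hy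
    have hQn : ‖(Q : ℚ_[l])‖ = 1 := by
      apply norm_eq_one_of_near norm_one
      have := (Padic.norm_intCast_lt_one_iff (p := l) (k := ((l * M : ℕ) : ℤ))).2 ⟨M, by push_cast; ring⟩
      rw [hQ]
      push_cast at this ⊢
      rwa [add_sub_cancel_left]
    have hb : ‖(r : ℚ_[l]) * (Q : ℚ_[l]) ^ a₀ - α‖ ≤ (l : ℝ) ^ (-((s + 1 : ℕ) : ℤ)) := by
      have h1 := norm_pow_le (l := l) (s + 1) (n := r.num * (1 + l * (M : ℤ)) ^ a₀ - α * r.den) ha₀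
      have h2 : (((r.num * (1 + l * (M : ℤ)) ^ a₀ - α * r.den : ℤ) : ℚ) : ℚ_[l])
          = (r.den : ℚ_[l]) * ((r : ℚ_[l]) * (Q : ℚ_[l]) ^ a₀ - α) := by
        rw [hQ]
        push_cast
        rw [← hrd]
        ring
      rw [h2, norm_mul, hden, one_mul] at h1
      exact h1
    have hQz : (Q : ℚ_[l]) ≠ 0 := by
      intro h0
      rw [h0, norm_zero] at hQn
      exact zero_ne_one hQn
    have e : ((r * ((Q : ℚ) ^ ((a₀ : ℤ) + (l : ℤ) ^ s * a') * (Q2 : ℚ) ^ ((l : ℤ) ^ s * b')) : ℚ) : ℚ_[l]) - α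
        = (r : ℚ_[l]) * (Q : ℚ_[l]) ^ a₀ * ((Q : ℚ_[l]) ^ ((l : ℤ) ^ s * a') * (Q2 : ℚ_[l]) ^ ((l : ℤ) ^ s * b') - 1)
          + ((r : ℚ_[l]) * (Q : ℚ_[l]) ^ a₀ - α) := by
      push_cast
      rw [zpow_add₀ hQz, zpow_natCast]
      ring
    rw [e]
    refine (Padic.nonarchimedean _ _).trans (max_le ?_ hb)
    rw [norm_mul, norm_mul, norm_pow, hrn, hQn, one_pow, one_mul, one_mul]
    exact hxy

end Pool.Agent.Helper80.AO
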